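import Pool.Agent.NH35.HS.Stm
import Pool.Agent.H916R2.Relations

/-! The condition modulo two by counting, for any number of prime factors (G7). -/

set_option autoImplicit false
set_option linter.unusedSectionVars false

namespace Pool.Agent.NH35.HS

open Finset Pool.Agent.H916R2 Pool.Agent.NH35.HG Pool.Agent.NH35.HE Pool.Agent.NH35.HK
open Pool.Agent.NH35.HQ

private lemma ratio_ccG (a φ h : ℕ) (hh : h ≠ 0) (e : a * φ = h) :
    (a : ℚ) / (h : ℚ) = 1 / (φ : ℚ) := by
  have hφ : (φ : ℚ) ≠ 0 := by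
    rintro h0
    have : φ = 0 := by exact_mod_cast h0
    subst this; simp at e; exact hh e.symm
  have ha : (a : ℚ) ≠ 0 := by
    rintro h0
    have : a = 0 := by exact_mod_cast h0
    subst this; simp at e; exact hh e.symm
  rw [← e]; push_cast
  field_simp

private lemma prod_ccG {ι : Type} [DecidableEq ι] (I : Finset ι)
    (a φ h : ι → ℕ) (hh : ∀ i, h i ≠ 0) (e : ∀ i ∈ I, a i * φ i = h i) :
    ∏ i ∈ I, ((a i : ℚ) / (h i : ℚ)) = 1 / ∏ i ∈ I, (φ i : ℚ) := by
  have h1 : ∏ i ∈ I, ((a i : ℚ) / (h i : ℚ)) = ∏ i ∈ I, ((1 : ℚ) / (φ i : ℚ)) :=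
    Finset.prod_congr rfl fun i hi => ratio_ccG _ _ _ (hh i) (e i hi)
  rw [h1, Finset.prod_div_distrib, Finset.prod_const_one]

theorem ccG_of (h1 : S_psg) (h2 : S_hitG) (h3 : S_revF) (h4 : S_boxW) : S_ccG := by
  classical
  intro m _ hA s I hI hs C
  let o : m.primeFactors → ℕ := fun q => q.1
  have ho : Function.Injective o := Subtype.val_injective
  choose b hb1 hb2 using fun z : ZMod m => h4 m hA C z
  -- the sum over the entries
  have hT : ∀ {M : Type} [AddCommMonoid M] (f : ZMod m → M),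
      ∑ t : s, f (t.1 : ZMod m) = (s.map f).sum := by
    intro M _ f
    rw [← Multiset.map_univ s f]; rfl
  have hcell := h2 m.primeFactors (HH m) C.d o ho I hI s (fun t => ty t.1) (fun t => b t.1)
  have hlt : (∑ t : s, (if I ⊆ ty t.1 then (NB I.card (ty t.1).card : ℚ) *
      ∏ i ∈ ty t.1, (((b t.1 i).card : ℚ) / (Fintype.card (HH m i) : ℚ)) else 0)) < 1 := by
    have e1 : ∀ z : ZMod m, (if I ⊆ ty z then (NB I.card (ty z).card : ℚ) *
        ∏ i ∈ ty z, (((b z i).card : ℚ) / (Fintype.card (HH m i) : ℚ)) else 0) = wtG I z := by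
      intro z
      unfold wtG
      by_cases hz : I ⊆ ty z
      · rw [if_pos hz, if_pos hz, prod_ccG (ty z) (fun i => (b z i).card)
          (fun i => Nat.totient (i.1 ^ (addOrderOf z).factorization i.1))
          (fun i => Fintype.card (HH m i)) (fun i => Fintype.card_ne_zero)
          (fun i hi => hb1 z i hi), mul_one_div]
      · rw [if_neg hz, if_neg hz]
    have e2 := hT (fun z : ZMod m => wtG I z)
    have e3 := hs
    rw [← e2] at e3
    refine lt_of_eq_of_lt (Finset.sum_congr rfl fun t _ => ?_) e3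
    exact e1 t.1
  obtain ⟨w, hw⟩ := hcell hlt
  obtain ⟨hF, hO, hlead, hvan⟩ := h1 m.primeFactors (HH m) C.d o ho I hI w
  obtain ⟨hD, hS⟩ := h3 m hA C (ZMod 2) (psg C.d o I w) hF hO
  refine ⟨w, ev C (psg C.d o I w), hD, ?_, ?_, ?_⟩
  · intro A hAI
    rw [hS]
    exact hvan A hAI
  · rw [hS]
    exact hlead
  · rw [sum_count s (ev C (psg C.d o I w)), ← hT]
    refine Finset.sum_eq_zero fun t _ => ?_
    rw [hb2 t.1 (ZMod 2) (psg C.d o I w)]
    have := hw t
    unfold bs2 at this
    convert this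

end Pool.Agent.NH35.HS
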