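import Pool.Agent.NH35.HS.Stm
import Pool.Agent.NH35.HQ.EvenQ

/-! The combinatorial theorem for levels divisible by four, any number of prime factors. -/

set_option autoImplicit false
set_option linter.unusedSectionVars false

namespace Pool.Agent.NH35.HS

open Finset Pool.Agent.H916R2 Pool.Agent.NH35.HG Pool.Agent.NH35.HE Pool.Agent.NH35.HK
open Pool.Agent.NH35.HQ

private lemma big_mono_eg {K : ℕ} {P P' : Finset ℕ} (h : P' ⊆ P) (hB : Big K P) : Big K P' :=
  fun A hA hc => hB A (hA.trans h) hc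

private lemma wt_lt_eg {m : ℕ} [NeZero m] {K : ℕ} (h5 : S_nb4) (hB : Big K m.primeFactors)
    (I : Finset m.primeFactors) (hI : 4 ≤ I.card) (z : ZMod m) (hz : Gd z) :
    wtG I z * K < if 4 ∣ addOrderOf z then (2 : ℚ) else 1 := by
  classical
  unfold wtG
  by_cases hIz : I ⊆ ty z
  · rw [if_pos hIz]
    obtain ⟨A, hA⟩ : ∃ A, A = (ty z).map (Function.Embedding.subtype _) := ⟨_, rfl⟩
    have hAc : A.card = (ty z).card := by rw [hA, card_map]
    have hAm : A ⊆ m.primeFactors := by
      rw [hA]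
      exact map63 _
    have hnb := h5 K I.card A (fun p hp => Nat.prime_of_mem_primeFactors (hAm hp))
      (big_mono_eg hAm hB) hI (by rw [hAc]; exact card_le_card hIz)
    have h51 : (∏ q ∈ A, tt q) ≤
        ∏ q ∈ ty z, Nat.totient (q.1 ^ (addOrderOf z).factorization q.1) := by
      rw [hA, ← prodty63]
      exact prod_le_prod' fun q hq =>
        tot63 hz (Nat.prime_of_mem_primeFactors q.2) (mem_ty63.1 hq)
    have h52 : 0 < ∏ q ∈ ty z, Nat.totient (q.1 ^ (addOrderOf z).factorization q.1) :=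
      prod_pos fun q hq => Nat.totient_pos.2
        (Nat.pow_pos (Nat.prime_of_mem_primeFactors q.2).pos)
    have h53 : (0 : ℚ) < ∏ q ∈ ty z, (Nat.totient (q.1 ^ (addOrderOf z).factorization q.1) : ℚ) := by
      exact_mod_cast h52
    rw [hAc] at hnb
    have key : ∀ x : ℕ, (if 2 ∈ A then 2 else 1) ≤ x →
        (NB I.card (ty z).card : ℚ) /
          (∏ q ∈ ty z, (Nat.totient (q.1 ^ (addOrderOf z).factorization q.1) : ℚ)) * K < x := by
      intro x hx
      rw [div_mul_eq_mul_div, div_lt_iff₀ h53]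
      have h54 : NB I.card (ty z).card * K <
          x * ∏ q ∈ ty z, Nat.totient (q.1 ^ (addOrderOf z).factorization q.1) :=
        lt_of_lt_of_le hnb (Nat.mul_le_mul hx h51)
      exact_mod_cast h54
    by_cases hd : 4 ∣ addOrderOf z
    · rw [if_pos hd]
      have h55 := key 2 (by split_ifs <;> norm_num)
      exact_mod_cast h55
    · rw [if_neg hd]
      have h2 : 2 ∉ A := by
        intro h2
        rw [hA, mem_map] at h2
        obtain ⟨a, ha, hb⟩ := h2
        have hb' : a.1 = 2 := hb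
        have h56 := mem_ty63.1 ha
        rw [hb'] at h56
        exact hd (dvd4_63 hz h56)
      have h55 := key 1 (by rw [if_neg h2])
      exact_mod_cast h55
  · rw [if_neg hIz, zero_mul]
    split_ifs <;> norm_num

private lemma sum_two_eg {m : ℕ} (s : Multiset (ZMod m)) :
    (s.map fun z => if 4 ∣ addOrderOf z then (2 : ℚ) else 1).sum =
      Multiset.card s + Multiset.card (s.filter fun z => 4 ∣ addOrderOf z) := by
  induction s using Multiset.induction_on with
  | empty => simp
  | cons a s ih =>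
    rw [Multiset.map_cons, Multiset.sum_cons, ih, Multiset.card_cons]
    by_cases h : 4 ∣ addOrderOf a
    · rw [if_pos h, Multiset.filter_cons_of_pos (p := fun z : ZMod m => 4 ∣ addOrderOf z) s h,
        Multiset.card_cons]
      push_cast
      ring
    · rw [if_neg h, Multiset.filter_cons_of_neg (p := fun z : ZMod m => 4 ∣ addOrderOf z) s h]
      push_cast
      ring

private lemma sum_wt_eg {m : ℕ} [NeZero m] {K : ℕ} (hK : 2 ≤ K) (h5 : S_nb4)
    (hB : Big K m.primeFactors) (I : Finset m.primeFactors) (hI : 4 ≤ I.card)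
    (s : Multiset (ZMod m)) (hG : ∀ z ∈ s, Gd z)
    (hα : Multiset.card s + Multiset.card (s.filter fun z => 4 ∣ addOrderOf z) ≤ K) :
    (s.map (wtG I)).sum < 1 := by
  classical
  by_cases hs : s = 0
  · rw [hs]
    simp
  · have h1 : (s.map fun z => wtG I z * K).sum <
        (s.map fun z => if 4 ∣ addOrderOf z then (2 : ℚ) else 1).sum :=
      Multiset.sum_lt_sum_of_nonempty hs fun z hz => wt_lt_eg h5 hB I hI z (hG z hz)
    rw [sum_two_eg, Multiset.sum_map_mul_right] at h1
    have h2 : (Multiset.card s : ℚ) + Multiset.card (s.filter fun z => 4 ∣ addOrderOf z) ≤ K := by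
      exact_mod_cast hα
    have hK0 : (0 : ℚ) < K := by exact_mod_cast (by omega : 0 < K)
    have h3 : (s.map (wtG I)).sum * K < 1 * K := by
      rw [one_mul]
      exact lt_of_lt_of_le h1 h2
    exact lt_of_mul_lt_mul_right h3 hK0.le

theorem evenG_of (h1 : S_remE) (h2 : S_cxlev) (h3 : S_coreQ) (h4 : S_ccG) (h5 : S_nb4) :
    S_evenG := by
  intro m K _ hm hK hB s hG hα hR hC Q _ c hc
  have hsK : Multiset.card s ≤ K := by omega
  -- removal of the large primes
  obtain ⟨s', hle, hord, hP, hsum⟩ := rem63 K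
    (fun s' : Multiset (ZMod m) => (∀ z ∈ s', Gd z) ∧
      Rel (fun z : ZMod m => (s'.count z : ℤ)) ∧
        CEall m (fun z : ZMod m => (s'.count z : ℤ)))
    (m.primeFactors.filter fun p => ¬ p ≤ K + 1) (by
      intro ℓ hℓ s' hs' hP'
      rw [mem_filter] at hℓ
      obtain ⟨ha, hb, hc⟩ := h1 m ℓ hm (Nat.prime_of_mem_primeFactors hℓ.1)
        (Nat.dvd_of_mem_primeFactors hℓ.1) (by omega) s' hP'.1 (by omega) hP'.2.1 hP'.2.2
      exact ⟨⟨fun z hz => hP'.1 z (Multiset.mem_filter.1 hz).1, hb, hc⟩, ha⟩)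
    s hsK ⟨hG, hR, hC⟩
  rw [hsum Q c hc]
  obtain ⟨m0, kk, hprod, hm00, hcop, hpf, s0, hs0⟩ := lvl63 (fun p => p ≤ K + 1) s' hord
  have : NeZero m0 := ⟨hm00⟩
  have h4m0 : 4 ∣ m0 := by
    have h20 : 2 ∣ m0 := by
      refine Nat.dvd_of_mem_primeFactors (n := m0) ?_
      rw [hpf, mem_filter]
      exact ⟨Nat.mem_primeFactors.2 ⟨Nat.prime_two, (by norm_num : 2 ∣ 4).trans hm,
        NeZero.ne m⟩, by omega⟩
    have hck : Nat.Coprime 4 kk := by
      have h8 : Nat.Coprime kk 2 := Nat.Coprime.coprime_dvd_right h20 hcop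
      have h9 : Nat.Coprime 2 kk := h8.symm
      have : Nat.Coprime (2 ^ 2) kk := Nat.Coprime.pow_left 2 h9
      simpa using this
    refine hck.dvd_of_dvd_mul_left ?_
    rw [hprod]
    exact hm
  obtain ⟨hl1, hl2⟩ := h2 m m0 kk h4m0 hprod hcop s0
  rw [hs0] at hl1 hl2
  have hR0 := hl1 hP.2.1
  have hC0 := hl2 hP.2.2
  have hG0 : ∀ z ∈ s0, Gd z := by
    intro z hz
    have h8 : Gd (iota kk z : ZMod m) := hP.1 _ (by
      rw [← hs0]
      exact Multiset.mem_map_of_mem _ hz)
    unfold Gd at h8 ⊢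
    rwa [ord63 hprod] at h8
  have hc0 : Multiset.card s0 = Multiset.card s' := by rw [← hs0, Multiset.card_map]
  have hα0 : Multiset.card s0 + Multiset.card (s0.filter fun z => 4 ∣ addOrderOf z) ≤ K := by
    have e1 : Multiset.card (s0.filter fun z => 4 ∣ addOrderOf z) =
        Multiset.card (s'.filter fun z => 4 ∣ addOrderOf z) := by
      rw [← hs0, Multiset.filter_map, Multiset.card_map]
      congr 1
      refine Multiset.filter_congr fun z _ => ?_
      simp only [Function.comp_apply]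
      rw [ord63 hprod]
    have e2 := Multiset.card_le_card hle
    have e3 := Multiset.card_le_card
      (Multiset.filter_le_filter (fun z => 4 ∣ addOrderOf z) hle)
    omega
  have hCX : CX m0 (fun z : ZMod m0 => (s0.count z : ℤ)) := by
    refine ⟨fun h => ?_, fun _ => hC0⟩
    obtain ⟨j, hj⟩ := h
    omega
  have hC4 : C4 univ (fun z : ZMod m0 => (s0.count z : ℤ)) := by
    intro C I _ hI4 _
    refine h4 m0 (Or.inr h4m0) s0 I (card_pos.1 (by omega)) ?_ C
    refine sum_wt_eg hK h5 ?_ I hI4 s0 hG0 hα0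
    rw [hpf]
    exact hB
  have hfin := h3 m0 (Or.inr h4m0) (fun z => (s0.count z : ℤ)) (fun z hz => hG0 z (by
    have hz' : s0.count z ≠ 0 := by exact_mod_cast hz
    exact Multiset.count_ne_zero.1 hz')) hR0 hCX hC4 Q
    (fun b => c (iota kk b)) (hc.comp_iota hprod)
  have h6 := sum_count s0 (fun b => c (iota kk b))
  rw [← hs0, Multiset.map_map]
  exact h6.symm.trans hfin

end Pool.Agent.NH35.HS
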