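import Pool.Agent.NH35.HS.Stm
import Pool.Agent.NH35.HE.Fin
import Pool.Agent.NH35.HG.Main

/-! The main theorem for degrees with any number of prime factors, from its parts (as HQ/Fin.lean). -/

set_option autoImplicit false
set_option linter.unusedSectionVars false

namespace Pool.Agent.NH35.HS

open Finset Pool.Agent.H916R2 Pool.Agent.H916K Pool.Agent.NH35.HG Pool.Agent.NH35.HE
open Pool.Agent.NH35.HK (S_up S_cecd)
open Pool.Agent.NH35.HQ (Gd S_cxinv S_down S_up2 S_cecd2 CX)

private lemma iota_sum' {k m0 m : ℕ} [NeZero m0] (h : k * m0 = m) (s : Multiset (ZMod m0)) :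
    (s.map (iota k : ZMod m0 → ZMod m)).sum = iota k s.sum := by
  induction s using Multiset.induction_on with
  | empty => simp [iota_zero]
  | cons a s ih => rw [Multiset.map_cons, Multiset.sum_cons, ih, Multiset.sum_cons, iota_add h]

private lemma iota_zero_of {k m0 m : ℕ} [NeZero m0] [NeZero m] (h : k * m0 = m) (z : ZMod m0)
    (hz : (iota k z : ZMod m) = 0) : z = 0 := by
  unfold iota at hz
  rw [ZMod.natCast_eq_zero_iff, ← h] at hz
  have hk : 0 < k := Nat.pos_of_ne_zero (by rintro rfl; simp at h; exact NeZero.ne m h.symm)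
  have h1 : m0 ∣ z.val := Nat.dvd_of_mul_dvd_mul_left hk hz
  have h2 := Nat.eq_zero_of_dvd_of_lt h1 (ZMod.val_lt z)
  exact (ZMod.val_eq_zero z).1 h2

/-- **The main theorem for odd degrees.** -/
theorem main_oddG (ho : S_odd) (h1 : S_we1w) (hA : S_thmE) (hup : S_up) (hce : S_cecd)
    (hC : S_oddG) {m : ℕ} (hm2 : 2 ≤ m) (hodd : Odd m) {s : Multiset (ZMod m × ℤ)} (hs : s ≠ 0)
    (heven : Even (Multiset.card s)) (h0 : ∀ z ∈ s, z.1 ≠ 0 ∧ z.2 ≠ 0)
    (hsum : (s.map Prod.fst).sum = 0)
    (hB : Big (Multiset.card s) (m.primeFactors.filter fun p => p ≤ Multiset.card s + 1))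
    (hR : OddClass m s) : Generated m (fun _ => False) (s.map Prod.fst) := by
  classical
  have hm3 : 2 < m := by
    rcases hodd with ⟨j, hj⟩
    omega
  have hW := ho m hm3 s heven h0 hsum hR
  have hH := hodge_of_weak hm2 (fun z hz => (h0 z hz).1) heven hsum (fun z hz => (h0 z hz).2) hW
  have hne : s.map Prod.fst ≠ 0 := fun h => hs (Multiset.map_eq_zero.mp h)
  have : NeZero m := ⟨by omega⟩
  have : NeZero (4 * m) := ⟨by omega⟩
  have h4 : (4 : ℕ) * m = 4 * m := rfl
  have hmap : ((s.map fun z => ((iota 4 z.1 : ZMod (4 * m)), z.2)).map Prod.fst) =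
      (s.map Prod.fst).map (iota 4 : ZMod m → ZMod (4 * m)) := by
    rw [Multiset.map_map, Multiset.map_map]
    rfl
  have hw := h1 (4 * m) (dvd_mul_right 4 m) (by omega)
    (s.map fun z => ((iota 4 z.1 : ZMod (4 * m)), z.2)) (by rwa [Multiset.card_map])
    (by
      intro z hz
      obtain ⟨y, hy, rfl⟩ := Multiset.mem_map.mp hz
      exact ⟨fun h => (h0 y hy).1 (iota_zero_of h4 _ h), (h0 y hy).2⟩)
    (hup m hodd s hW)
  rw [hmap] at hw
  have hE := hA (4 * m) (dvd_mul_right 4 m) _
    (by rw [iota_sum' h4, hsum, iota_zero]) hw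
  have hCD := hce m hodd (s.map Prod.fst) hE
  have key := hC m (Multiset.card s) hodd hB (s.map Prod.fst) (by rw [Multiset.card_map])
    hH.rel hCD _ (cQ m (fun _ => False)) cQ_oddDist
  rw [cQ_sum, QuotientAddGroup.eq_zero_iff] at key
  exact generated_of_mem_LL (fun _ h => h.elim) (fun _ h => h.elim) hH.1 hH.2.1 hne key

/-! ### the elements of order twice an odd number -/

section
variable {m : ℕ} [NeZero m]

/-- the element of order two is unique -/
private lemma two_unique (w : ZMod m) (h : w + w = 0) (h0 : w ≠ 0) :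
    w = ((m / 2 : ℕ) : ZMod m) ∧ 2 * (m / 2) = m := by
  have h1 : m ∣ 2 * w.val := by
    rw [← ZMod.natCast_eq_zero_iff]
    push_cast
    rw [ZMod.natCast_zmod_val, two_mul]
    exact h
  obtain ⟨k, hk⟩ := h1
  have hlt := ZMod.val_lt w
  have hpos : 0 < w.val := Nat.pos_of_ne_zero fun h => h0 ((ZMod.val_eq_zero w).1 h)
  have hk1 : k = 1 := by
    rcases k with _ | _ | k
    · omega
    · rfl
    · exfalso
      have : m * 2 ≤ m * (k + 1 + 1) := Nat.mul_le_mul_left m (by omega)
      omega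
  subst hk1
  have h2 : w.val = m / 2 := by omega
  refine ⟨?_, by omega⟩
  rw [← h2, ZMod.natCast_zmod_val]

/-- an element of order twice an odd number is replaced by two elements of odd order -/
noncomputable def gdrep (z : ZMod m) : Multiset (ZMod m) := by
  classical
  exact if Gd z then {z} else {2 * z, -(z + ((m / 2 : ℕ) : ZMod m))}

private lemma half_ord {z : ZMod m} (hz : ¬ Gd z) : ∃ d : ℕ, Odd d ∧ d • (2 * z) = 0 ∧
    d • (z + ((m / 2 : ℕ) : ZMod m)) = 0 ∧ 2 * (m / 2) = m := by
  unfold Gd at hz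
  rw [not_not] at hz
  obtain ⟨d, hd⟩ : ∃ d, addOrderOf z = 2 * d := ⟨addOrderOf z / 2, by omega⟩
  have hdodd : Odd d := by
    rw [Nat.odd_iff]
    omega
  have h1 : (2 * d) • z = 0 := by
    rw [← hd]
    exact addOrderOf_nsmul_eq_zero z
  have h2 : d • z + d • z = 0 := by
    rw [← add_nsmul, ← two_mul]
    exact h1
  have h3 : d • z ≠ 0 := by
    intro h
    have h4 := addOrderOf_dvd_of_nsmul_eq_zero h
    rw [hd] at h4
    have h5 := Nat.le_of_dvd (by obtain ⟨j, hj⟩ := hdodd; omega) h4
    obtain ⟨j, hj⟩ := hdodd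
    omega
  obtain ⟨h4, h5⟩ := two_unique (d • z) h2 h3
  have h6 : ((m / 2 : ℕ) : ZMod m) + ((m / 2 : ℕ) : ZMod m) = 0 := by
    rw [← Nat.cast_add, ← two_mul, h5, ZMod.natCast_self]
  refine ⟨d, hdodd, ?_, ?_, h5⟩
  · rw [two_mul, nsmul_add]
    exact h2
  · obtain ⟨j, hj⟩ := hdodd
    rw [nsmul_add, h4]
    have h7 : d • ((m / 2 : ℕ) : ZMod m) = ((m / 2 : ℕ) : ZMod m) := by
      rw [hj, add_nsmul, mul_nsmul', two_nsmul, one_nsmul]
      have : j • (((m / 2 : ℕ) : ZMod m) + ((m / 2 : ℕ) : ZMod m)) = 0 := by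
        rw [h6, nsmul_zero]
      rw [nsmul_add] at this
      rw [this, zero_add]
    rw [h7]
    exact h6

private lemma odd_ord {w : ZMod m} {d : ℕ} (hd : Odd d) (h : d • w = 0) : Odd (addOrderOf w) :=
  Odd.of_dvd_nat hd (addOrderOf_dvd_of_nsmul_eq_zero h)

private lemma gdrep_gd (z : ZMod m) : ∀ w ∈ gdrep z, Gd w := by
  classical
  intro w hw
  unfold gdrep at hw
  split_ifs at hw with h
  · rw [Multiset.mem_singleton] at hw
    rwa [hw]
  · obtain ⟨d, hd, h1, h2, _⟩ := half_ord h
    have hodd : Odd (addOrderOf w) := by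
      rw [Multiset.insert_eq_cons, Multiset.mem_cons, Multiset.mem_singleton] at hw
      rcases hw with rfl | rfl
      · exact odd_ord hd h1
      · rw [addOrderOf_neg]
        exact odd_ord hd h2
    unfold Gd
    rw [Nat.odd_iff] at hodd
    omega

private lemma gdrep_sum {Q : Type} [AddCommGroup Q] {c : ZMod m → Q} (hc : OddDist c) (z : ZMod m) :
    ((gdrep z).map c).sum = c z := by
  classical
  unfold gdrep
  split_ifs with h
  · rw [Multiset.map_singleton, Multiset.sum_singleton]
  · obtain ⟨d, hd, h1, h2, h3⟩ := half_ord h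
    have h4 := hc.dist 2 (m / 2) Nat.prime_two h3 z
    rw [sum_range_succ, sum_range_one] at h4
    rw [Nat.cast_zero, zero_mul, add_zero, Nat.cast_one, one_mul, Nat.cast_ofNat] at h4
    rw [Multiset.insert_eq_cons, Multiset.map_cons, Multiset.map_singleton, Multiset.sum_cons,
      Multiset.sum_singleton, hc.neg, ← h4]
    abel

private lemma gdrep_sum' {Q : Type} [AddCommGroup Q] {c : ZMod m → Q} (hc : OddDist c)
    (s : Multiset (ZMod m)) : ((s.bind gdrep).map c).sum = (s.map c).sum := by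
  induction s using Multiset.induction_on with
  | empty => simp
  | cons a s ih =>
    rw [Multiset.cons_bind, Multiset.map_add, Multiset.sum_add, ih, gdrep_sum hc,
      Multiset.map_cons, Multiset.sum_cons]

private lemma gdrep_count (z : ZMod m) :
    Multiset.card (gdrep z) + Multiset.card ((gdrep z).filter fun z => 4 ∣ addOrderOf z) ≤ 2 ∧
    Multiset.card (({z} : Multiset (ZMod m)).filter fun z => 4 ∣ addOrderOf z) ≤
      Multiset.card ((gdrep z).filter fun z => 4 ∣ addOrderOf z) := by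
  classical
  unfold gdrep
  split_ifs with h
  · refine ⟨?_, le_rfl⟩
    have h1 := Multiset.card_le_card (Multiset.filter_le (fun z => 4 ∣ addOrderOf z)
      ({z} : Multiset (ZMod m)))
    rw [Multiset.card_singleton] at h1 ⊢
    omega
  · obtain ⟨d, hd, h1, h2, _⟩ := half_ord h
    have h3 : ({2 * z, -(z + ((m / 2 : ℕ) : ZMod m))} : Multiset (ZMod m)).filter
        (fun z => 4 ∣ addOrderOf z) = 0 := by
      rw [Multiset.filter_eq_nil]
      intro w hw h4
      have hodd : Odd (addOrderOf w) := by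
        rw [Multiset.insert_eq_cons, Multiset.mem_cons, Multiset.mem_singleton] at hw
        rcases hw with rfl | rfl
        · exact odd_ord hd h1
        · rw [addOrderOf_neg]
          exact odd_ord hd h2
      rw [Nat.odd_iff] at hodd
      omega
    rw [h3]
    have h4 : ({z} : Multiset (ZMod m)).filter (fun z => 4 ∣ addOrderOf z) = 0 := by
      rw [Multiset.filter_eq_nil]
      intro w hw h5
      rw [Multiset.mem_singleton] at hw
      rw [hw] at h5
      unfold Gd at h
      rw [not_not] at h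
      omega
    rw [h4]
    simp

private lemma gdrep_counts (s : Multiset (ZMod m)) :
    Multiset.card (s.bind gdrep) +
      Multiset.card ((s.bind gdrep).filter fun z => 4 ∣ addOrderOf z) ≤ 2 * Multiset.card s ∧
    Multiset.card (s.filter fun z => 4 ∣ addOrderOf z) ≤
      Multiset.card ((s.bind gdrep).filter fun z => 4 ∣ addOrderOf z) := by
  classical
  induction s using Multiset.induction_on with
  | empty => simp
  | cons a s ih =>
    obtain ⟨h1, h2⟩ := gdrep_count a
    have h3 : (a ::ₘ s).filter (fun z => 4 ∣ addOrderOf z) =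
        ({a} : Multiset (ZMod m)).filter (fun z => 4 ∣ addOrderOf z) +
          s.filter (fun z => 4 ∣ addOrderOf z) := by
      rw [← Multiset.filter_add, Multiset.singleton_add]
    rw [Multiset.cons_bind, Multiset.filter_add, Multiset.card_add, Multiset.card_add, h3,
      Multiset.card_add, Multiset.card_cons]
    omega

end

/-- elements whose order is not divisible by four come from level `2 * m1`, `m1` odd -/
private lemma ord_two {m m1 e : ℕ} [NeZero m] (hm1 : Odd m1) (hm : 2 ^ e * m1 = m) (z : ZMod m)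
    (hz : ¬ 4 ∣ addOrderOf z) : (2 * m1) • z = 0 := by
  have hom : addOrderOf z ∣ m := by
    refine addOrderOf_dvd_of_nsmul_eq_zero ?_
    rw [nsmul_eq_mul, ZMod.natCast_self, zero_mul]
  rw [← addOrderOf_dvd_iff_nsmul_eq_zero]
  replace hom : addOrderOf z ∣ 2 ^ e * m1 := hom.trans (dvd_of_eq hm.symm)
  rcases Nat.even_or_odd (addOrderOf z) with h | h
  · obtain ⟨d, hd⟩ := h
    have hd2 : addOrderOf z = 2 * d := by omega
    have hdodd : Odd d := by
      rw [Nat.odd_iff]
      by_contra h
      apply hz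
      rw [hd2]
      omega
    have h1 : d ∣ 2 ^ e * m1 := (Dvd.intro_left 2 hd2.symm).trans hom
    have h2 : Nat.Coprime d (2 ^ e) := Nat.Coprime.pow_right e (Nat.coprime_two_right.2 hdodd)
    rw [hd2]
    exact Nat.mul_dvd_mul_left 2 (h2.dvd_of_dvd_mul_left h1)
  · have h2 : Nat.Coprime (addOrderOf z) (2 ^ e) :=
      Nat.Coprime.pow_right e (Nat.coprime_two_right.2 h)
    exact (h2.dvd_of_dvd_mul_left hom).trans (Dvd.intro_left 2 rfl)

/-- elements killed by `m0` are in the image of `iota` -/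
private lemma iota_surj {m m0 k : ℕ} [NeZero m] [NeZero m0] (hk : k * m0 = m) (z : ZMod m)
    (hz : m0 • z = 0) : (iota k (((z.val / k : ℕ)) : ZMod m0) : ZMod m) = z := by
  have hdz : m ∣ m0 * z.val := by
    rw [← ZMod.natCast_eq_zero_iff]
    push_cast
    rw [ZMod.natCast_zmod_val, ← nsmul_eq_mul]
    exact hz
  have hkz : k ∣ z.val := by
    have hdz' : k * m0 ∣ z.val * m0 := by
      rw [mul_comm z.val m0]
      exact (dvd_of_eq hk).trans hdz
    exact Nat.dvd_of_mul_dvd_mul_right (Nat.pos_of_ne_zero (NeZero.ne m0)) hdz'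
  rw [iota_natCast hk, Nat.mul_div_cancel' hkz, ZMod.natCast_zmod_val]

/-- the key relation for classes without entries of order divisible by four -/
private lemma key_two (ho : S_odd) (h1 : S_we1w) (hA : S_thmE) (hC : S_oddG) (hup2 : S_up2)
    (hce2 : S_cecd2) {m1 : ℕ} (hm1 : Odd m1) {s : Multiset (ZMod (2 * m1) × ℤ)}
    (heven : Even (Multiset.card s)) (h0 : ∀ z ∈ s, z.1 ≠ 0 ∧ z.2 ≠ 0)
    (hsum : (s.map Prod.fst).sum = 0)
    (hB : Big (2 * Multiset.card s) (m1.primeFactors.filter fun p => p ≤ 2 * Multiset.card s + 1))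
    (hR : OddClass (2 * m1) s)
    {Q : Type} [AddCommGroup Q] (c : ZMod (2 * m1) → Q) (hc : OddDist c) :
    ((s.map Prod.fst).map c).sum = 0 := by
  classical
  have hm10 : 0 < m1 := hm1.pos
  have : NeZero m1 := ⟨by omega⟩
  have : NeZero (2 * m1) := ⟨by omega⟩
  have : NeZero (4 * m1) := ⟨by omega⟩
  by_cases hone : m1 = 1
  · subst hone
    have hz : ∀ z : ZMod (2 * 1), z + z = 0 := by decide
    refine Multiset.sum_eq_zero fun x hx => ?_
    obtain ⟨z, _, rfl⟩ := Multiset.mem_map.1 hx
    exact hc.half z (hz z)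
  have hm3 : 2 < 2 * m1 := by
    rcases hm1 with ⟨j, hj⟩
    omega
  have hW := ho (2 * m1) hm3 s heven h0 hsum hR
  have hH := hodge_of_weak (by omega) (fun z hz => (h0 z hz).1) heven hsum
    (fun z hz => (h0 z hz).2) hW
  have h4 : (2 : ℕ) * (2 * m1) = 4 * m1 := by ring
  have hmap : ((s.map fun z => ((iota 2 z.1 : ZMod (4 * m1)), z.2)).map Prod.fst) =
      (s.map Prod.fst).map (iota 2 : ZMod (2 * m1) → ZMod (4 * m1)) := by
    rw [Multiset.map_map, Multiset.map_map]
    rfl
  have hw := h1 (4 * m1) (dvd_mul_right 4 m1) (by omega)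
    (s.map fun z => ((iota 2 z.1 : ZMod (4 * m1)), z.2)) (by rwa [Multiset.card_map])
    (by
      intro z hz
      obtain ⟨y, hy, rfl⟩ := Multiset.mem_map.mp hz
      exact ⟨fun h => (h0 y hy).1 (iota_zero_of h4 _ h), (h0 y hy).2⟩)
    (hup2 m1 hm1 s hW)
  rw [hmap] at hw
  have hE := hA (4 * m1) (dvd_mul_right 4 m1) _
    (by rw [iota_sum' h4, hsum, iota_zero]) hw
  have hCD := hce2 m1 hm1 (s.map Prod.fst) hE
  have hrel := dbl_rel hm1 hH
  have hcd : Multiset.card ((s.map Prod.fst).bind dbl) ≤ 2 * Multiset.card s := by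
    have h5 : ∀ t : Multiset (ZMod (2 * m1)), Multiset.card (t.bind dbl) ≤ 2 * Multiset.card t := by
      intro t
      induction t using Multiset.induction_on with
      | empty => simp
      | cons a t ih =>
        rw [Multiset.cons_bind, Multiset.card_add, Multiset.card_cons]
        have h6 : Multiset.card (dbl a) ≤ 2 := by
          unfold dbl
          split_ifs <;> simp
        omega
    have h7 := h5 (s.map Prod.fst)
    rw [Multiset.card_map] at h7
    omega
  have key := hC m1 (2 * Multiset.card s) hm1 hB _ hcd hrel hCD Q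
    (fun v => c (iota 2 v)) (hc.comp_iota rfl)
  rw [dbl_sum' hm1 hc] at key
  exact key

/-- **The main theorem.** -/
theorem main_allG (ho : S_odd) (h1 : S_we1w) (hA : S_thmE) (hup : S_up) (hce : S_cecd)
    (hC : S_oddG) (hE : S_evenG) (hdown : S_down) (hup2 : S_up2) (hce2 : S_cecd2) (hinv : S_cxinv)
    {m : ℕ} (hm2 : 2 ≤ m) {s : Multiset (ZMod m × ℤ)} (hs : s ≠ 0)
    (heven : Even (Multiset.card s)) (h0 : ∀ z ∈ s, z.1 ≠ 0 ∧ z.2 ≠ 0)
    (hsum : (s.map Prod.fst).sum = 0)
    (hB1 : Odd m → Big (Multiset.card s) (m.primeFactors.filter fun p => p ≤ Multiset.card s + 1))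
    (hB2 : Even m → Big (2 * Multiset.card s)
      ((m.primeFactors.erase 2).filter fun p => p ≤ 2 * Multiset.card s + 1))
    (hB4 : 4 ∣ m → Big (2 * Multiset.card s)
      (m.primeFactors.filter fun p => p ≤ 2 * Multiset.card s + 1))
    (hR : OddClass m s) : Generated m (fun _ => False) (s.map Prod.fst) := by
  classical
  have hmz : NeZero m := ⟨by omega⟩
  rcases Nat.even_or_odd m with hme | hmo
  swap
  · exact main_oddG ho h1 hA hup hce hC hm2 hmo hs heven h0 hsum (hB1 hmo) hR
  -- even degrees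
  obtain ⟨e, m1, hm1o, hm1⟩ : ∃ e m1 : ℕ, Odd m1 ∧ 2 ^ (e + 1) * m1 = m := by
    obtain ⟨e, m1, hm1, h⟩ := Nat.exists_eq_two_pow_mul_odd (NeZero.ne m)
    rcases e with _ | e
    · exfalso
      rw [pow_zero, one_mul] at h
      rw [h] at hme
      exact (Nat.not_even_iff_odd.2 hm1) hme
    · exact ⟨e, m1, hm1, h.symm⟩
  have hm10 : 0 < m1 := hm1o.pos
  have h2m1 : NeZero (2 * m1) := ⟨by omega⟩
  have hkm : 2 ^ e * (2 * m1) = m := by rw [← hm1]; ring
  suffices key : IsHodge m (s.map Prod.fst) ∧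
      ((s.map Prod.fst).map (cQ m (fun _ => False))).sum = 0 by
    obtain ⟨hH, hk⟩ := key
    have hne : s.map Prod.fst ≠ 0 := fun h => hs (Multiset.map_eq_zero.mp h)
    rw [cQ_sum, QuotientAddGroup.eq_zero_iff] at hk
    exact generated_of_mem_LL (fun _ h => h.elim) (fun _ h => h.elim) hH.1 hH.2.1 hne hk
  have hH : IsHodge m (s.map Prod.fst) := by
    by_cases hmeq : m = 2
    · subst hmeq
      refine ⟨?_, by rwa [Multiset.card_map], hsum, ?_⟩
      · intro h
        obtain ⟨z, hz, hz0⟩ := Multiset.mem_map.mp h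
        exact (h0 z hz).1 hz0
      · intro t
        have h3 : ∀ a ∈ s.map Prod.fst, ((t : ZMod 2) * a).val = 1 := by
          intro a ha
          obtain ⟨z, hz, rfl⟩ := Multiset.mem_map.mp ha
          have h4 := (h0 z hz).1
          have h5 : ∀ (u : (ZMod 2)ˣ) (b : ZMod 2), b ≠ 0 → ((u : ZMod 2) * b).val = 1 := by
            decide
          exact h5 t z.1 h4
        rw [Multiset.map_congr rfl h3, Multiset.map_const', Multiset.sum_replicate, smul_eq_mul,
          mul_one]
    · exact hodge_of_weak hm2 (fun z hz => (h0 z hz).1) heven hsum (fun z hz => (h0 z hz).2)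
        (ho m (by omega) s heven h0 hsum hR)
  refine ⟨hH, ?_⟩
  have hcQ : OddDist (cQ m (fun _ => False)) := cQ_oddDist
  by_cases hall : ∀ z ∈ s.map Prod.fst, ¬ 4 ∣ addOrderOf z
  · -- no entry of order divisible by four
    obtain ⟨s0, hs0⟩ : ∃ s0 : Multiset (ZMod (2 * m1) × ℤ),
        s0.map (fun z => ((iota (2 ^ e) z.1 : ZMod m), z.2)) = s := by
      refine ⟨s.map fun z => (((z.1.val / 2 ^ e : ℕ) : ZMod (2 * m1)), z.2), ?_⟩
      rw [Multiset.map_map]
      conv_rhs => rw [← Multiset.map_id s]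
      refine Multiset.map_congr rfl fun z hz => ?_
      have h3 := iota_surj hkm z.1 (ord_two hm1o hm1 z.1 (hall z.1 (Multiset.mem_map_of_mem _ hz)))
      exact Prod.ext h3 rfl
    have hfst : s.map Prod.fst = (s0.map Prod.fst).map (iota (2 ^ e) : ZMod (2 * m1) → ZMod m) := by
      rw [← hs0, Multiset.map_map, Multiset.map_map]
      rfl
    have hR0 : OddClass (2 * m1) s0 := hdown m (2 * m1) (2 ^ e) hkm s0 (by rw [hs0]; exact hR)
    have hcard0 : Multiset.card s0 = Multiset.card s := by rw [← hs0, Multiset.card_map]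
    have h00 : ∀ z ∈ s0, z.1 ≠ 0 ∧ z.2 ≠ 0 := by
      intro z hz
      have h3 := h0 (iota (2 ^ e) z.1, z.2) (by
        rw [← hs0]
        exact Multiset.mem_map_of_mem (fun z => ((iota (2 ^ e) z.1 : ZMod m), z.2)) hz)
      refine ⟨fun h => h3.1 ?_, h3.2⟩
      show (iota (2 ^ e) z.1 : ZMod m) = 0
      rw [h, iota_zero]
    have hsum0 : (s0.map Prod.fst).sum = 0 := by
      apply iota_zero_of hkm
      rw [← iota_sum' hkm, ← hfst, hsum]
    have hB0 : Big (2 * Multiset.card s0)
        (m1.primeFactors.filter fun p => p ≤ 2 * Multiset.card s0 + 1) := by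
      rw [hcard0]
      intro A hA' hA4
      refine hB2 hme A (fun p hp => ?_) hA4
      have h5 := mem_filter.1 (hA' hp)
      have h6 := Nat.prime_of_mem_primeFactors h5.1
      have h7 := Nat.dvd_of_mem_primeFactors h5.1
      rw [mem_filter, mem_erase]
      refine ⟨⟨?_, ?_⟩, h5.2⟩
      · rintro rfl
        exact (Nat.not_even_iff_odd.2 hm1o) (even_iff_two_dvd.2 h7)
      · exact Nat.mem_primeFactors.2 ⟨h6, h7.trans (Dvd.intro_left _ hm1), by omega⟩
    have h3 := key_two ho h1 hA hC hup2 hce2 hm1o (by rw [hcard0]; exact heven) h00 hsum0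
      hB0 hR0 (fun z => cQ m (fun _ => False) (iota (2 ^ e) z))
      (hcQ.comp_iota hkm)
    rw [hfst, Multiset.map_map]
    exact h3
  · -- at least one entry of order divisible by four
    push Not at hall
    obtain ⟨z0, hz0, hz04⟩ := hall
    have hdvd : addOrderOf z0 ∣ m := by
      refine addOrderOf_dvd_of_nsmul_eq_zero ?_
      rw [nsmul_eq_mul, ZMod.natCast_self, zero_mul]
    have h4 : 4 ∣ m := hz04.trans hdvd
    have hm3 : 2 < m := by
      obtain ⟨j, hj⟩ := h4
      omega
    obtain ⟨hc1, hc2⟩ := gdrep_counts (s.map Prod.fst)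
    rw [Multiset.card_map] at hc1
    have hW := ho m hm3 s heven h0 hsum hR
    have hw := h1 m h4 (by omega) s heven h0 hW
    have hCE := hA m h4 _ hsum hw
    have hpair : ∀ (Q : Type) [AddCommGroup Q] (c : ZMod m → Q), OddDist c →
        ∑ z, (((s.map Prod.fst).count z : ℕ) : ℤ) • c z =
          ∑ z, ((((s.map Prod.fst).bind gdrep).count z : ℕ) : ℤ) • c z := by
      intro Q _ c hc
      rw [sum_count, sum_count, gdrep_sum' hc]
    obtain ⟨hi1, hi2⟩ := hinv m _ _ hpair
    have hnodd : ¬ Odd m := Nat.not_odd_iff_even.2 hme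
    have hpos : 0 < Multiset.card s := Multiset.card_pos.2 hs
    have key := hE m (2 * Multiset.card s) h4 (by omega) (hB4 h4) ((s.map Prod.fst).bind gdrep) (by
      intro z hz
      obtain ⟨a, _, ha⟩ := Multiset.mem_bind.1 hz
      exact gdrep_gd a z ha) hc1 (hi1 hH.rel)
      ((hi2 ⟨fun h => absurd h hnodd, fun _ => hCE⟩).2 h4) _ (cQ m (fun _ => False)) hcQ
    rw [gdrep_sum' hcQ] at key
    exact key

end Pool.Agent.NH35.HS
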