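import Pool.Agent.NH35.HS.Sys

/-! A cell missed by all boxes, modulo two (job HS-6, helper37). -/

set_option autoImplicit false
set_option linter.unusedSectionVars false

namespace Pool.Agent.NH35.HS

open Finset Pool.Agent.NH35.HK Pool.Agent.NH35.HQ

namespace HitG

variable {ι : Type} [Fintype ι] [DecidableEq ι] {H : ι → Type} [∀ i, CommGroup (H i)]
  [∀ i, Fintype (H i)] [∀ i, DecidableEq (H i)]

/-- one translate -/
def Mr {i : ι} (b : Finset (H i)) (g : H i) : Finset (H i) := univ.filter fun x => x * g ∈ b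

theorem card_Mr {i : ι} (b : Finset (H i)) (g : H i) : (Mr b g).card ≤ b.card := by
  refine card_le_card_of_injOn (fun x => x * g) (fun x hx => ?_) fun x _ y _ hxy => ?_
  · exact (mem_filter.1 hx).2
  · exact mul_right_cancel hxy

theorem bs2_ne' {J : Finset ι} {a : ∀ i, Finset (H i)} {F : (∀ i, H i) → ZMod 2}
    (h : bs2 J a F ≠ 0) : ∃ u : ∀ i, H i, (∀ i ∈ J, u i ∈ a i) ∧ F u ≠ 0 := by
  unfold bs2 at h
  obtain ⟨u, -, hu⟩ := exists_ne_zero_of_sum_ne_zero h
  by_cases hc : (∀ i ∈ J, u i ∈ a i) ∧ (∀ i, i ∉ J → u i = 1)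
  · rw [if_pos hc] at hu
    exact ⟨u, hc.1, hu⟩
  · rw [if_neg hc] at hu
    exact absurd rfl hu

/-- the product set of a group element -/
def PS (A : Finset ι) (b : ∀ i, Finset (H i)) (g : ∀ i, H i) : Finset (∀ i, H i) :=
  Fintype.piFinset fun i => if i ∈ A then Mr (b i) (g i) else univ

theorem card_PS (A : Finset ι) (b : ∀ i, Finset (H i)) (g : ∀ i, H i) :
    ((PS A b g).card : ℚ) ≤ (∏ i ∈ A, (((b i).card : ℚ) / (Fintype.card (H i) : ℚ))) *
      (Fintype.card (∀ i, H i) : ℚ) := by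
  have hH : ∀ i, (Fintype.card (H i) : ℚ) ≠ 0 := fun i => Nat.cast_ne_zero.2 Fintype.card_ne_zero
  unfold PS
  rw [Fintype.card_piFinset, Fintype.card_pi, Nat.cast_prod, Nat.cast_prod]
  have h1 : ∏ i ∈ A, (((b i).card : ℚ) / (Fintype.card (H i) : ℚ)) =
      ∏ i, if i ∈ A then (((b i).card : ℚ) / (Fintype.card (H i) : ℚ)) else 1 := by
    rw [prod_ite_mem, univ_inter]
  rw [h1, ← prod_mul_distrib]
  refine prod_le_prod (fun i _ => Nat.cast_nonneg _) fun i _ => ?_
  split_ifs
  · rw [div_mul_cancel₀ _ (hH i)]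
    exact_mod_cast card_Mr (b i) (g i)
  · rw [one_mul, card_univ]

theorem bad (d : Dat H) (o : ι → ℕ) (I A : Finset ι) (b : ∀ i, Finset (H i)) (w : ∀ i, H i)
    (h : bs2 A b (psg d o I w A) ≠ 0) : w ∈ (pe d o I A).coeff.support.biUnion (PS A b) := by
  obtain ⟨u, h1, h2⟩ := bs2_ne' h
  refine mem_biUnion.2 ⟨rs A (w⁻¹ * u), Finsupp.mem_support_iff.2 h2, ?_⟩
  unfold PS
  rw [Fintype.mem_piFinset]
  intro i
  split_ifs with hi
  · refine mem_filter.2 ⟨mem_univ _, ?_⟩
    unfold rs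
    rw [if_pos hi, Pi.mul_apply, Pi.inv_apply, mul_inv_cancel_left]
    exact h1 i hi
  · exact mem_univ _

end HitG

open HitG in
/-- (G6) -/
theorem hitG_of (h1 : S_plen) : S_hitG := by
  intro ι _ _ H _ _ _ d o ho I hI T _ A b hsum
  classical
  let Bad : T → Finset (∀ i, H i) := fun t =>
    univ.filter fun w => bs2 (A t) (b t) (psg d o I w (A t)) ≠ 0
  have hBad : ∀ t, ((Bad t).card : ℚ) ≤
      (if I ⊆ A t then (NB I.card (A t).card : ℚ) *
        ∏ i ∈ A t, (((b t i).card : ℚ) / (Fintype.card (H i) : ℚ)) else 0) *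
        (Fintype.card (∀ i, H i) : ℚ) := by
    intro t
    by_cases h2 : I ⊆ A t
    · rw [if_pos h2]
      have h3 : Bad t ⊆ (pe d o I (A t)).coeff.support.biUnion (PS (A t) (b t)) := by
        intro w hw
        exact bad d o I (A t) (b t) w (mem_filter.1 hw).2
      have h4 : ((Bad t).card : ℚ) ≤ ∑ g ∈ (pe d o I (A t)).coeff.support,
          ((PS (A t) (b t) g).card : ℚ) := by
        exact_mod_cast (card_le_card h3).trans card_biUnion_le
      refine h4.trans ((sum_le_sum fun g _ => card_PS (A t) (b t) g).trans ?_)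
      rw [sum_const, nsmul_eq_mul, mul_assoc]
      refine mul_le_mul_of_nonneg_right ?_ ?_
      · exact_mod_cast h1 ι H d o ho I (A t) hI h2
      · exact mul_nonneg (prod_nonneg fun i _ => by positivity) (Nat.cast_nonneg _)
    · rw [if_neg h2, zero_mul]
      have h3 : Bad t = ∅ := by
        rw [eq_empty_iff_forall_notMem]
        intro w hw
        obtain ⟨u, -, h4⟩ := bs2_ne' (mem_filter.1 hw).2
        apply h4
        unfold psg pe
        rw [if_neg h2]
        rfl
      rw [h3, card_empty, Nat.cast_zero]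
  by_contra hno
  push Not at hno
  have h2 : (univ : Finset (∀ i, H i)) ⊆ univ.biUnion Bad := by
    intro w _
    obtain ⟨t, ht⟩ := hno w
    exact mem_biUnion.2 ⟨t, mem_univ t, mem_filter.2 ⟨mem_univ w, ht⟩⟩
  have h3 := (card_le_card h2).trans card_biUnion_le
  rw [card_univ] at h3
  have h4 : (Fintype.card (∀ i, H i) : ℚ) ≤ ∑ t, ((Bad t).card : ℚ) := by
    exact_mod_cast h3
  have h5 := h4.trans (sum_le_sum fun t _ => hBad t)
  rw [← sum_mul] at h5
  have h6 : (0 : ℚ) < (Fintype.card (∀ i, H i) : ℚ) := Nat.cast_pos.2 Fintype.card_pos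
  nlinarith

end Pool.Agent.NH35.HS
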