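import Pool.Agent.NH35.HS.Stm
import Pool.Agent.NH35.HQ.HodgeH

/-! The combinatorial theorem for Hodge classes: levels prime to six with any number of prime
factors. -/

set_option autoImplicit false
set_option linter.unusedSectionVars false

namespace Pool.Agent.NH35.HS

open Finset Pool.Agent.H916R2 Pool.Agent.NH35.HG Pool.Agent.NH35.HE Pool.Agent.NH35.HK
open Pool.Agent.NH35.HQ

/-- the bound of one weight -/
lemma wt93 {m k : ℕ} [NeZero m] (h5 : S_nb2) (hpr : ∀ p ∈ m.primeFactors, 5 ≤ p)
    (hpq : ∀ p ∈ m.primeFactors, ∀ q ∈ m.primeFactors, p ≠ q → 4 * k < (p - 1) * (q - 1))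
    (I : Finset m.primeFactors) (hI : 2 ≤ I.card) (z : ZMod m) : wtG I z * k < 1 := by
  classical
  unfold wtG
  split_ifs with h
  · have hA : (ty z).map (Function.Embedding.subtype _) ⊆ m.primeFactors := map63 (ty z)
    have hc : ((ty z).map (Function.Embedding.subtype _)).card = (ty z).card := card_map _
    have h6 := h5 k I.card ((ty z).map (Function.Embedding.subtype _))
      (fun p hp => ⟨Nat.prime_of_mem_primeFactors (hA hp), hpr p (hA hp)⟩)
      (fun p hp q hq hne => hpq p (hA hp) q (hA hq) hne) hI (by rw [hc]; exact card_le_card h)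
    rw [hc, ← prodty63 (ty z) (fun q => q - 1)] at h6
    have h7 : ∏ q ∈ ty z, (q.1 - 1) ≤
        ∏ q ∈ ty z, Nat.totient (q.1 ^ (addOrderOf z).factorization q.1) :=
      prod_le_prod' fun q hq => totodd63 (Nat.prime_of_mem_primeFactors q.2) (mem_ty63.1 hq)
    have h8 := h6.trans_le h7
    have h9 : (NB I.card (ty z).card : ℚ) * k <
        ∏ q ∈ ty z, (Nat.totient (q.1 ^ (addOrderOf z).factorization q.1) : ℚ) := by
      exact_mod_cast h8
    have h10 : (0 : ℚ) < ∏ q ∈ ty z, (Nat.totient (q.1 ^ (addOrderOf z).factorization q.1) : ℚ) :=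
      lt_of_le_of_lt (by positivity) h9
    rw [div_mul_eq_mul_div, div_lt_one h10]
    exact h9
  · rw [zero_mul]
    exact one_pos

lemma sumle93 {α : Type} (f : α → ℚ) (k : ℚ) (t : Multiset α) (h : ∀ z, f z * k < 1) :
    (t.map f).sum * k ≤ Multiset.card t := by
  induction t using Multiset.induction with
  | empty => simp
  | cons a t ih =>
    rw [Multiset.map_cons, Multiset.sum_cons, Multiset.card_cons, add_mul]
    push_cast
    have := h a
    linarith

/-- the sum of the weights -/
lemma sum93 {α : Type} (f : α → ℚ) {k : ℕ} (hk : 0 < k) (s : Multiset α)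
    (hs : Multiset.card s ≤ k) (h : ∀ z, f z * k < 1) : (s.map f).sum < 1 := by
  have hk0 : (0 : ℚ) < k := by exact_mod_cast hk
  rcases Multiset.empty_or_exists_mem s with h0 | ⟨a, ha⟩
  · rw [h0]
    simp
  · obtain ⟨t, rfl⟩ := Multiset.exists_cons_of_mem ha
    have h1 := sumle93 f k t h
    have h2 := h a
    rw [Multiset.card_cons] at hs
    have h3 : (Multiset.card t : ℚ) + 1 ≤ k := by exact_mod_cast hs
    rw [Multiset.map_cons, Multiset.sum_cons]
    by_contra hcon
    have h4 : 1 * (k : ℚ) ≤ (f a + (t.map f).sum) * k :=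
      mul_le_mul_of_nonneg_right (not_lt.1 hcon) hk0.le
    rw [add_mul, one_mul] at h4
    linarith

theorem hodG_of (h1 : S_remH) (h3 : S_coreH) (h4 : S_ccG) (h5 : S_nb2) : S_hodG := by
  intro m k _ h6 hcase s hs hR Q _ c hc
  have hm := odd_of_six h6
  rcases Nat.lt_or_ge (Multiset.card s) 2 with hlt | hge
  · rcases Nat.lt_or_ge (Multiset.card s) 1 with h0 | h0
    · have hs0 : s = 0 := Multiset.card_eq_zero.1 (by omega)
      rw [hs0]
      simp
    · have hs1 : Multiset.card s = 1 := by omega
      obtain ⟨z, rfl⟩ := Multiset.card_eq_one.1 hs1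
      have h4 := hR 1
      have h5 := sum_count ({z} : Multiset (ZMod m)) (fun a => saw (((1 : (ZMod m)ˣ) : ZMod m) * a))
      simp only [smul_eq_mul] at h5
      rw [h4] at h5
      rw [Multiset.map_singleton, Multiset.sum_singleton, Units.val_one, one_mul] at h5
      have hz : z = 0 := by
        by_contra hz
        unfold saw at h5
        rw [if_neg hz] at h5
        obtain ⟨j, hj⟩ := hm
        omega
      rw [Multiset.map_singleton, Multiset.sum_singleton, hz]
      exact hc.half 0 (by simp)
  · have hk : 2 ≤ k := hge.trans hs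
    obtain ⟨s', hle, hord, hR', hsum⟩ := rem63 k
      (fun s' : Multiset (ZMod m) => Rel (fun z : ZMod m => (s'.count z : ℤ)))
      (m.primeFactors.filter fun p => ¬ p ≤ k + 1) (by
        intro ℓ hℓ s' hs' hP
        rw [mem_filter] at hℓ
        obtain ⟨ha, hb⟩ := h1 m ℓ h6 (Nat.prime_of_mem_primeFactors hℓ.1)
          (Nat.dvd_of_mem_primeFactors hℓ.1) s' (by omega) hP
        exact ⟨hb, ha⟩) s hs hR
    rw [hsum Q c hc]
    obtain ⟨m0, kk, hprod, hm00, hcop, hpf, s0, hs0⟩ := lvl63 (fun p => p ≤ k + 1) s' hord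
    have : NeZero m0 := ⟨hm00⟩
    have h60 : m0.Coprime 6 := Nat.Coprime.coprime_dvd_left (Dvd.intro_left _ hprod) h6
    have hodd0 : Odd m0 := odd_of_six h60
    have hcard0 : Multiset.card s0 ≤ k := by
      have e1 : Multiset.card s' = Multiset.card s0 := by rw [← hs0, Multiset.card_map]
      have e2 := Multiset.card_le_card hle
      omega
    have hl1 := (lev_ok m m0 kk hm hprod hcop s0).1
    rw [hs0] at hl1
    have hR0 := hl1 hR'
    have hpr : ∀ q ∈ m0.primeFactors, 5 ≤ q := by
      intro q hq
      have hqp := Nat.prime_of_mem_primeFactors hq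
      obtain ⟨a, b, c⟩ := prime_six h60 hqp (Nat.dvd_of_mem_primeFactors hq)
      rcases Nat.lt_or_ge q 5 with h | h
      · exfalso
        have : q = 4 := by omega
        subst this
        exact absurd hqp (by norm_num)
      · exact h
    have hC2 : C2 univ (fun z : ZMod m0 => (s0.count z : ℤ)) := by
      intro C I _ hI _
      refine h4 m0 (Or.inl hodd0) s0 I (card_pos.1 (by omega)) ?_ C
      refine sum93 (wtG I) (by omega : 0 < k) s0 hcard0 fun z => ?_
      refine wt93 h5 hpr ?_ I hI z
      rw [hpf]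
      exact hcase
    have hfin := h3 m0 (Or.inl hodd0) (fun z => (s0.count z : ℤ)) (fun z _ => gd_of_odd hodd0 z)
      hR0 hC2 Q (fun b => c (iota kk b)) (hc.comp_iota hprod)
    have h6 := sum_count s0 (fun b => c (iota kk b))
    rw [← hs0, Multiset.map_map]
    exact h6.symm.trans hfin

end Pool.Agent.NH35.HS
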