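import Pool.Agent.NH35.HS.Sys

/-! Invariance under minus one. -/

set_option autoImplicit false
set_option linter.unusedSectionVars false

namespace Pool.Agent.NH35.HS

open Finset Pool.Agent.NH35.HK Pool.Agent.NH35.HQ

namespace KapAux

variable {ι : Type} [Fintype ι] [DecidableEq ι] {H : ι → Type} [∀ i, CommGroup (H i)]
  [∀ i, Fintype (H i)] [∀ i, DecidableEq (H i)]

lemma two_GR : (2 : GR H) = 0 := by
  have h := map_ofNat (algebraMap (ZMod 2) (GR H)) 2
  rw [← h]
  have : (OfNat.ofNat 2 : ZMod 2) = 0 := by decide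
  rw [this, map_zero]

instance charGR : CharP (GR H) 2 :=
  CharTwo.of_one_ne_zero_of_two_eq_zero one_ne_zero two_GR

instance charMv : CharP (MvPolynomial (Option ι) (GR H)) 2 :=
  CharTwo.of_one_ne_zero_of_two_eq_zero one_ne_zero (by
    have h := map_ofNat (MvPolynomial.C (R := GR H) (σ := Option ι)) 2
    rw [← h]
    have : (OfNat.ofNat 2 : GR H) = 0 := two_GR
    rw [this, map_zero])

lemma gr_mul (g h : ∀ i, H i) : gr g * gr h = (gr (g * h) : GR H) := by
  unfold gr
  rw [MonoidAlgebra.single_mul_single, mul_one]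

lemma gr_one : (gr 1 : GR H) = 1 := rfl

lemma rs_empty (g : ∀ i, H i) : rs ∅ g = 1 := by
  funext i
  simp [rs]

lemma rs_sq (d : Dat H) (S : Finset ι) : rs S d.κ * rs S d.κ = 1 := by
  funext i
  have := congrFun d.hκ i
  by_cases hi : i ∈ S
  · simpa [rs, hi] using this
  · simp [rs, hi]

lemma ed_sq (d : Dat H) (o : ι → ℕ) (A : Finset ι) (i : ι) :
    ed o A d.κ i * ed o A d.κ i = 0 := by
  unfold ed
  rw [CharTwo.add_mul_self, gr_mul, gr_mul, rs_sq, rs_sq]
  exact CharTwo.add_self_eq_zero _

/-- telescoping -/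
lemma tele (o : ι → ℕ) (ho : Function.Injective o) (g : ∀ i, H i) (A : Finset ι) :
    ∑ i ∈ A, ed o A g i = 1 + gr (rs A g) := by
  induction A using Finset.induction_on_min_value o with
  | empty =>
    rw [Finset.sum_empty, rs_empty, gr_one]
    exact (CharTwo.add_self_eq_zero _).symm
  | insert a s ha hmin ih =>
    have hlt : ∀ x ∈ s, o a < o x := fun x hx => lt_of_le_of_ne (hmin x hx) fun h =>
      ha (by rw [ho h]; exact hx)
    rw [Finset.sum_insert ha]
    have e1 : ∑ i ∈ s, ed o (insert a s) g i = ∑ i ∈ s, ed o s g i := by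
      refine Finset.sum_congr rfl fun i hi => ?_
      have hi' := hlt i hi
      unfold ed
      rw [Finset.filter_insert, Finset.filter_insert, if_neg (by omega), if_neg (by omega)]
    have e2 : ed o (insert a s) g a = gr (rs (insert a s) g) + gr (rs s g) := by
      unfold ed
      have h1 : ((insert a s).filter fun j => o a ≤ o j) = insert a s := by
        refine Finset.filter_true_of_mem fun x hx => ?_
        rcases Finset.mem_insert.1 hx with rfl | hx
        · exact le_refl _
        · exact hmin x hx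
      have h2 : ((insert a s).filter fun j => o a < o j) = s := by
        rw [Finset.filter_insert, if_neg (lt_irrefl _)]
        exact Finset.filter_true_of_mem fun x hx => hlt x hx
      rw [h1, h2]
    rw [e1, e2, ih]
    have := CharTwo.add_self_eq_zero (gr (rs s g) : GR H)
    calc gr (rs (insert a s) g) + gr (rs s g) + (1 + gr (rs s g))
        = 1 + gr (rs (insert a s) g) + (gr (rs s g) + gr (rs s g)) := by ring
      _ = 1 + gr (rs (insert a s) g) := by rw [this, add_zero]

/-- the sum of the factors -/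
lemma sum_fc (d : Dat H) (o : ι → ℕ) (ho : Function.Injective o) (I A : Finset ι) :
    ∑ i ∈ A, fc d o I A i = MvPolynomial.X none * MvPolynomial.C (1 + gr (rs A d.κ)) := by
  unfold fc
  rw [Finset.sum_add_distrib, Finset.sum_add_distrib, ← Finset.mul_sum, ← map_sum, tele o ho,
    Finset.sum_comm]
  have e1 : ∀ r ∈ A \ I, ∑ i ∈ A, (MvPolynomial.X (some r) * MvPolynomial.C (ed o A (d.τ r) i) :
      MvPolynomial (Option ι) (GR H)) =
      MvPolynomial.X (some r) * MvPolynomial.C (1 + gr (rs A (d.τ r))) := by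
    intro r _
    rw [← Finset.mul_sum, ← map_sum, tele o ho]
  rw [Finset.sum_congr rfl e1, Finset.sum_ite_mem, Finset.inter_eq_right.2 Finset.sdiff_subset,
    add_assoc, CharTwo.add_self_eq_zero, add_zero]

/-- the ideal of the squares -/
noncomputable def J (I A : Finset ι) : Ideal (MvPolynomial (Option ι) (GR H)) :=
  Ideal.span {p | ∃ r ∈ A \ I, p = MvPolynomial.X (some r) * MvPolynomial.X (some r)}

lemma mem_J {I A : Finset ι} {r : ι} (hr : r ∈ A \ I) (c : GR H) :
    (MvPolynomial.X (some r) * MvPolynomial.C c) * (MvPolynomial.X (some r) * MvPolynomial.C c) ∈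
      (J I A : Ideal (MvPolynomial (Option ι) (GR H))) := by
  rw [show (MvPolynomial.X (some r) * MvPolynomial.C c) * (MvPolynomial.X (some r) *
    MvPolynomial.C c) = (MvPolynomial.C c * MvPolynomial.C c) *
    (MvPolynomial.X (some r) * MvPolynomial.X (some r) : MvPolynomial (Option ι) (GR H)) by ring]
  exact Ideal.mul_mem_left _ _ (Ideal.subset_span ⟨r, hr, rfl⟩)

lemma fc_sq (d : Dat H) (o : ι → ℕ) (I A : Finset ι) (i : ι) :
    fc d o I A i * fc d o I A i ∈ (J I A : Ideal (MvPolynomial (Option ι) (GR H))) := by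
  unfold fc
  rw [CharTwo.add_mul_self, CharTwo.add_mul_self, CharTwo.sum_mul_self]
  refine Ideal.add_mem _ (Ideal.add_mem _ ?_ (Ideal.sum_mem _ fun r hr => mem_J hr _)) ?_
  · rw [show (MvPolynomial.X none * MvPolynomial.C (ed o A d.κ i)) *
      (MvPolynomial.X none * MvPolynomial.C (ed o A d.κ i)) = (MvPolynomial.X none *
      MvPolynomial.X none) * (MvPolynomial.C (ed o A d.κ i) * MvPolynomial.C (ed o A d.κ i) :
      MvPolynomial (Option ι) (GR H)) by ring, ← map_mul, ed_sq, map_zero, mul_zero]
    exact Ideal.zero_mem _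
  · split_ifs with h
    · exact mem_J h _
    · rw [mul_zero]
      exact Ideal.zero_mem _

lemma coeff_J {I A : Finset ι} {p : MvPolynomial (Option ι) (GR H)} (hp : p ∈ J I A) :
    ∀ m : Option ι →₀ ℕ, (∀ r ∈ A \ I, m (some r) ≤ 1) → MvPolynomial.coeff m p = 0 := by
  unfold J at hp
  induction hp using Submodule.span_induction with
  | mem x hx =>
    intro m hm
    obtain ⟨r, hr, rfl⟩ := hx
    rw [MvPolynomial.coeff_X_mul', MvPolynomial.coeff_X']
    have := hm r hr
    split_ifs with h1 h2
    · exfalso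
      have h3 := DFunLike.congr_fun h2 (some r)
      rw [Finsupp.single_eq_same, Finsupp.tsub_apply, Finsupp.single_eq_same] at h3
      omega
    · rfl
    · rfl
  | zero => intro m _; exact MvPolynomial.coeff_zero m
  | add x y _ _ hx hy =>
    intro m hm
    rw [MvPolynomial.coeff_add, hx m hm, hy m hm, add_zero]
  | smul a x _ hx =>
    intro m hm
    rw [smul_eq_mul, MvPolynomial.coeff_mul]
    refine Finset.sum_eq_zero fun y hy => ?_
    rw [hx y.2 fun r hr => ?_, mul_zero]
    have h1 := Finset.HasAntidiagonal.mem_antidiagonal.1 hy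
    have h2 := DFunLike.congr_fun h1 (some r)
    have h3 := hm r hr
    rw [Finsupp.add_apply] at h2
    omega

end KapAux

open KapAux in
/-- (G2) the element is invariant under minus one -/
theorem kap_ok : S_kap := by
  intro ι _ _ H _ _ _ d o ho I A hIA
  have h1 : (∑ i ∈ A, fc d o I A i) * ∏ i ∈ A, fc d o I A i ∈
      (J I A : Ideal (MvPolynomial (Option ι) (GR H))) := by
    rw [Finset.sum_mul]
    refine Ideal.sum_mem _ fun i hi => ?_
    rw [← Finset.mul_prod_erase A _ hi, ← mul_assoc]
    exact Ideal.mul_mem_right _ _ (fc_sq d o I A i)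
  rw [sum_fc d o ho, mul_assoc] at h1
  have h2 := coeff_J h1 (Finsupp.single none 1 + mo I A) (by
    intro r hr
    unfold mo
    rw [Finsupp.add_apply, Finsupp.add_apply, Finsupp.single_eq_of_ne (by simp),
      Finsupp.single_eq_of_ne (by simp), Finsupp.finset_sum_apply, zero_add, zero_add]
    calc ∑ x ∈ A \ I, (Finsupp.single (some x) 1 : Option ι →₀ ℕ) (some r)
        = ∑ x ∈ A \ I, (if x = r then 1 else 0) := by
          refine Finset.sum_congr rfl fun x _ => ?_
          rw [Finsupp.single_apply]
          simp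
      _ ≤ 1 := by
          rw [Finset.sum_ite_eq']
          split_ifs <;> omega)
  rw [MvPolynomial.coeff_X_mul, MvPolynomial.coeff_C_mul] at h2
  have h3 : pe d o I A = MvPolynomial.coeff (mo I A) (∏ i ∈ A, fc d o I A i) := if_pos hIA
  rw [← h3, add_mul, one_mul, CharTwo.add_eq_zero] at h2
  exact h2.symm

end Pool.Agent.NH35.HS
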