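import Pool.Agent.NH35.HS.Sys

/-! HS-3 (helper82): the leading term, `S_lead`. -/

set_option autoImplicit false
set_option linter.unusedSectionVars false

namespace Pool.Agent.NH35.HS

open Finset Pool.Agent.NH35.HK Pool.Agent.NH35.HQ

namespace Lead82

variable {ι : Type} [Fintype ι] [DecidableEq ι] {H : ι → Type} [∀ i, CommGroup (H i)]
  [∀ i, Fintype (H i)] [∀ i, DecidableEq (H i)]

theorem gr_mul (g h : ∀ i, H i) : (gr (g * h) : GR H) = gr g * gr h := by
  unfold gr
  rw [MonoidAlgebra.single_mul_single, mul_one]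

theorem gr_one : (gr (1 : ∀ i, H i) : GR H) = 1 := rfl

theorem rs_insert {a : ι} {s : Finset ι} (ha : a ∉ s) (g : ∀ i, H i) :
    rs (insert a s) g = rs {a} g * rs s g := by
  funext i
  rw [Pi.mul_apply]
  unfold rs
  by_cases h : i = a
  · subst h
    simp [ha]
  · simp [h]

theorem rs_empty (g : ∀ i, H i) : rs ∅ g = 1 := by
  funext i
  unfold rs
  simp

theorem kk (d : Dat H) (b : ι) :
    (gr (rs {b} d.κ) : GR H) * (1 + gr (rs {b} d.κ)) = 1 + gr (rs {b} d.κ) := by
  have h1 : rs {b} d.κ * rs {b} d.κ = 1 := by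
    funext i
    rw [Pi.mul_apply]
    unfold rs
    by_cases h : i = b
    · subst h
      simpa using congrFun d.hκ i
    · simp [h]
  rw [mul_add, mul_one, ← gr_mul, h1, gr_one, add_comm]

theorem absorb (d : Dat H) (s : Finset ι) :
    (gr (rs s d.κ) : GR H) * ∏ i ∈ s, (1 + gr (rs {i} d.κ)) = ∏ i ∈ s, (1 + gr (rs {i} d.κ)) := by
  induction s using Finset.induction_on with
  | empty => rw [rs_empty, gr_one, one_mul]
  | insert b t hb ih =>
    rw [Finset.prod_insert hb, rs_insert hb, gr_mul]
    calc (gr (rs {b} d.κ) : GR H) * gr (rs t d.κ) *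
          ((1 + gr (rs {b} d.κ)) * ∏ i ∈ t, (1 + gr (rs {i} d.κ)))
        = (gr (rs {b} d.κ) * (1 + gr (rs {b} d.κ))) *
          (gr (rs t d.κ) * ∏ i ∈ t, (1 + gr (rs {i} d.κ))) := by ring
      _ = _ := by rw [kk, ih]

theorem prod_ed (d : Dat H) (o : ι → ℕ) (ho : Function.Injective o) (J : Finset ι) :
    (∏ i ∈ J, (ed o J d.κ i : GR H)) = ∏ i ∈ J, (1 + gr (rs {i} d.κ)) := by
  induction J using Finset.induction_on_min_value o with
  | empty => rfl
  | insert a s ha hmin ih =>
    have hlt : ∀ x ∈ s, o a < o x := fun x hx =>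
      lt_of_le_of_ne (hmin x hx) (fun h => ha (ho h ▸ hx))
    rw [Finset.prod_insert ha, Finset.prod_insert ha]
    have h1 : ∀ i ∈ s, (ed o (insert a s) d.κ i : GR H) = ed o s d.κ i := by
      intro i hi
      have h2 := hlt i hi
      unfold ed
      rw [Finset.filter_insert, if_neg (by omega), Finset.filter_insert, if_neg (by omega)]
    rw [Finset.prod_congr rfl h1, ih]
    have h2 : (ed o (insert a s) d.κ a : GR H) = (1 + gr (rs {a} d.κ)) * gr (rs s d.κ) := by
      unfold ed
      have e1 : (insert a s).filter (fun j => o a ≤ o j) = insert a s := by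
        rw [Finset.filter_true_of_mem]
        intro x hx
        rcases Finset.mem_insert.1 hx with rfl | hx
        · exact le_refl _
        · exact (hlt x hx).le
      have e2 : (insert a s).filter (fun j => o a < o j) = s := by
        rw [Finset.filter_insert, if_neg (lt_irrefl _), Finset.filter_true_of_mem]
        exact hlt
      rw [e1, e2, rs_insert ha, gr_mul, add_mul, one_mul, add_comm]
    rw [h2, mul_assoc, absorb]

end Lead82

open Lead82 in
/-- HS-3 -/
theorem lead_ok : S_lead := by
  intro ι _ _ H _ _ _ d o ho I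
  unfold pe
  rw [if_pos (Finset.Subset.refl I)]
  have h1 : ∀ i ∈ I, fc d o I I i = MvPolynomial.X none * MvPolynomial.C (ed o I d.κ i) := by
    intro i _
    unfold fc
    rw [Finset.sdiff_self, Finset.sum_empty, if_neg (Finset.notMem_empty i), add_zero, add_zero]
  rw [Finset.prod_congr rfl h1, Finset.prod_mul_distrib, Finset.prod_const, ← map_prod,
    prod_ed d o ho I]
  unfold mo
  rw [Finset.sdiff_self, Finset.sum_empty, add_zero, MvPolynomial.X_pow_eq_monomial,
    mul_comm, MvPolynomial.C_mul_monomial, MvPolynomial.coeff_monomial, if_pos rfl, mul_one]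

end Pool.Agent.NH35.HS
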