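import Pool.Agent.NH35.HS.Stm

/-! Number theory of the size conditions. -/

set_option autoImplicit false

namespace Pool.Agent.NH35.HS

open Finset Pool.Agent.NH35.HK Pool.Agent.NH35.HQ

namespace Num

theorem desc_mono (N k l : ℕ) (hkl : k ≤ l) (hl : l ≤ N) : N.descFactorial k ≤ N.descFactorial l := by
  induction l, hkl using Nat.le_induction with
  | base => exact le_rfl
  | succ l hkl ih =>
    rw [Nat.descFactorial_succ]
    have h1 : 1 ≤ N - l := by omega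
    calc N.descFactorial k ≤ N.descFactorial l := ih (by omega)
      _ ≤ (N - l) * N.descFactorial l := Nat.le_mul_of_pos_left _ h1

theorem NB_mono (m n a : ℕ) (hm : 1 ≤ m) (hmn : m ≤ n) (hn : n ≤ a) : NB n a ≤ NB m a := by
  unfold NB
  exact Nat.mul_le_mul_left _ (desc_mono _ _ _ (by omega) (by omega))

theorem NB_succ (m a : ℕ) (hm : 1 ≤ m) (hma : m ≤ a) : NB m (a + 1) = 2 * a * NB m a := by
  unfold NB
  obtain ⟨b, rfl⟩ : ∃ b, a = b + 1 := ⟨a - 1, by omega⟩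
  have h1 : b + 1 + 1 - m = (b + 1 - m) + 1 := by omega
  rw [h1, Nat.add_sub_cancel, Nat.add_sub_cancel, Nat.succ_descFactorial_succ, pow_succ 2 (b + 1)]
  ring

theorem NB_self (m : ℕ) : NB m m = 2 ^ m := by
  unfold NB
  rw [Nat.sub_self, Nat.descFactorial_zero, mul_one]

theorem ex_ge (S T : Finset ℕ) (b : ℕ) (hT : T.card < S.card)
    (h : ∀ q ∈ S, q < b → q ∈ T) : ∃ q ∈ S, b ≤ q := by
  by_contra hno
  push Not at hno
  exact absurd (card_le_card fun q hq => h q hq (hno q hq)) (not_le.2 hT)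

theorem ex_big (P : Finset ℕ) (a : ℕ) (ha : 1 ≤ a) (hP : ∀ p ∈ P, p.Prime) (hc : P.card = a + 1) :
    ∃ q ∈ P, 2 * a + 1 ≤ q := by
  refine ex_ge P (insert 2 ((Icc 1 (a - 1)).image fun k => 2 * k + 1)) _ ?_ ?_
  · have h1 := card_insert_le 2 ((Icc 1 (a - 1)).image fun k => 2 * k + 1)
    have h2 : ((Icc 1 (a - 1)).image fun k => 2 * k + 1).card ≤ (Icc 1 (a - 1)).card :=
      card_image_le
    rw [Nat.card_Icc] at h2
    omega
  · intro q hq hqa
    rcases (hP q hq).eq_two_or_odd' with h2 | ⟨k, hk⟩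
    · rw [h2]
      exact mem_insert_self _ _
    · apply mem_insert_of_mem
      rw [mem_image]
      have h2 := (hP q hq).two_le
      exact ⟨k, by rw [mem_Icc]; omega, hk.symm⟩

theorem nb4 (K : ℕ) : ∀ (a : ℕ), 4 ≤ a → ∀ P : Finset ℕ, (∀ p ∈ P, p.Prime) → Big K P →
    P.card = a → NB 4 a * K < (if 2 ∈ P then 2 else 1) * ∏ q ∈ P, tt q := by
  intro a ha
  induction a, ha using Nat.le_induction with
  | base =>
    intro P _ hB hc
    have h1 := hB P subset_rfl hc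
    rw [NB_self]
    exact h1
  | succ a ha ih =>
    intro P hP hB hc
    obtain ⟨q, hq, hqa⟩ := ex_big P a (by omega) hP hc
    have hq2 : q ≠ 2 := by omega
    have h1 := ih (P.erase q) (fun p hp => hP p (mem_of_mem_erase hp))
      (fun A hA => hB A (hA.trans (erase_subset _ _))) (by rw [card_erase_of_mem hq, hc]; rfl)
    have h2 : (if 2 ∈ P.erase q then 2 else 1 : ℕ) = (if 2 ∈ P then 2 else 1) := by
      have : 2 ∈ P.erase q ↔ 2 ∈ P := by
        rw [mem_erase]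
        exact ⟨fun h => h.2, fun h => ⟨hq2.symm, h⟩⟩
      simp only [this]
    rw [h2] at h1
    rw [NB_succ 4 a (by norm_num) ha, ← mul_prod_erase P tt hq]
    have h3 : 2 * a ≤ tt q := by
      unfold tt
      rw [if_neg hq2]
      omega
    calc 2 * a * NB 4 a * K = 2 * a * (NB 4 a * K) := by ring
      _ < 2 * a * ((if 2 ∈ P then 2 else 1) * ∏ q ∈ P.erase q, tt q) :=
        Nat.mul_lt_mul_of_pos_left h1 (by omega)
      _ ≤ tt q * ((if 2 ∈ P then 2 else 1) * ∏ q ∈ P.erase q, tt q) := Nat.mul_le_mul_right _ h3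
      _ = _ := by ring

theorem nb2 (k : ℕ) : ∀ (a : ℕ), 2 ≤ a → ∀ P : Finset ℕ, (∀ p ∈ P, p.Prime ∧ 5 ≤ p) →
    (∀ p ∈ P, ∀ q ∈ P, p ≠ q → 4 * k < (p - 1) * (q - 1)) →
    P.card = a → NB 2 a * k < ∏ q ∈ P, (q - 1) := by
  intro a ha
  induction a, ha using Nat.le_induction with
  | base =>
    intro P _ hB hc
    obtain ⟨p, q, hpq, rfl⟩ := card_eq_two.1 hc
    have h1 := hB p (by simp) q (by simp) hpq
    rw [NB_self, prod_pair hpq]
    exact h1
  | succ a ha ih =>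
    intro P hP hB hc
    obtain ⟨q, hq, hqa⟩ := ex_big P a (by omega) (fun p hp => (hP p hp).1) hc
    have h1 := ih (P.erase q) (fun p hp => hP p (mem_of_mem_erase hp))
      (fun p hp r hr => hB p (mem_of_mem_erase hp) r (mem_of_mem_erase hr))
      (by rw [card_erase_of_mem hq, hc]; rfl)
    rw [NB_succ 2 a (by norm_num) ha, ← mul_prod_erase P (fun q => q - 1) hq]
    have h3 : 2 * a ≤ q - 1 := by omega
    calc 2 * a * NB 2 a * k = 2 * a * (NB 2 a * k) := by ring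
      _ < 2 * a * (∏ q ∈ P.erase q, (q - 1)) := Nat.mul_lt_mul_of_pos_left h1 (by omega)
      _ ≤ (q - 1) * (∏ q ∈ P.erase q, (q - 1)) := Nat.mul_le_mul_right _ h3

/-- removing a large element -/
theorem step (S T : Finset ℕ) (k b c : ℕ) (hT : T.card ≤ k) (hS : S.card = k + 1)
    (h : ∀ q ∈ S, q < b → q ∈ T)
    (hrec : ∀ S' ⊆ S, S'.card = k → c ≤ ∏ q ∈ S', (q - 1)) :
    (b - 1) * c ≤ ∏ q ∈ S, (q - 1) := by
  obtain ⟨q, hq, hqb⟩ := ex_ge S T b (by omega) h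
  rw [← mul_prod_erase S (fun q => q - 1) hq]
  exact Nat.mul_le_mul (by omega) (hrec _ (erase_subset _ _) (by
    rw [card_erase_of_mem hq, hS]
    rfl))

theorem small (q : ℕ) (hq : q.Prime) (h2 : q ≠ 2) :
    3 ≤ q ∧ (q < 5 → q = 3) ∧ (q < 7 → q = 3 ∨ q = 5) ∧ (q < 11 → q = 3 ∨ q = 5 ∨ q = 7) ∧
      (q < 13 → q = 3 ∨ q = 5 ∨ q = 7 ∨ q = 11) := by
  have h3 := hq.two_le
  by_cases h13 : q < 13
  · interval_cases q <;> first | omega | (exfalso; revert hq; norm_num)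
  · refine ⟨by omega, ?_, ?_, ?_, ?_⟩ <;> omega

/-- odd primes -/
theorem odd1 (S : Finset ℕ) (hS : ∀ q ∈ S, q.Prime ∧ q ≠ 2) (hc : S.card = 1) :
    2 ≤ ∏ q ∈ S, (q - 1) := by
  refine step S ∅ 0 3 1 (by simp) hc ?_ ?_
  · intro q hq hlt
    have := (small q (hS q hq).1 (hS q hq).2).1
    omega
  · intro S' _ h0
    rw [card_eq_zero.1 h0, prod_empty]

theorem odd2 (S : Finset ℕ) (hS : ∀ q ∈ S, q.Prime ∧ q ≠ 2) (hc : S.card = 2) :
    8 ≤ ∏ q ∈ S, (q - 1) := by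
  refine step S {3} 1 5 2 (by simp) hc ?_ ?_
  · intro q hq hlt
    have := (small q (hS q hq).1 (hS q hq).2).2.1 hlt
    simp [this]
  · intro S' hS' h1
    exact odd1 S' (fun q hq => hS q (hS' hq)) h1

theorem odd3 (S : Finset ℕ) (hS : ∀ q ∈ S, q.Prime ∧ q ≠ 2) (hc : S.card = 3) :
    48 ≤ ∏ q ∈ S, (q - 1) := by
  refine step S {3, 5} 2 7 8 (by simp) hc ?_ ?_
  · intro q hq hlt
    have := (small q (hS q hq).1 (hS q hq).2).2.2.1 hlt
    simp [this]
  · intro S' hS' h1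
    exact odd2 S' (fun q hq => hS q (hS' hq)) h1

theorem odd4 (S : Finset ℕ) (hS : ∀ q ∈ S, q.Prime ∧ q ≠ 2) (hc : S.card = 4) :
    480 ≤ ∏ q ∈ S, (q - 1) := by
  refine step S {3, 5, 7} 3 11 48 (by simp) hc ?_ ?_
  · intro q hq hlt
    have := (small q (hS q hq).1 (hS q hq).2).2.2.2.1 hlt
    simp [this]
  · intro S' hS' h1
    exact odd3 S' (fun q hq => hS q (hS' hq)) h1

/-- three odd primes, not all of `3`, `5`, `7` -/
theorem odd3' (S : Finset ℕ) (hS : ∀ q ∈ S, q.Prime ∧ q ≠ 2) (hc : S.card = 3)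
    (hn : ¬ (3 ∈ S ∧ 5 ∈ S ∧ 7 ∈ S)) : 80 ≤ ∏ q ∈ S, (q - 1) := by
  obtain ⟨q, hq, hqb⟩ : ∃ q ∈ S, 11 ≤ q := by
    by_contra hno
    push Not at hno
    have h1 : S ⊆ {3, 5, 7} := by
      intro q hq
      have := (small q (hS q hq).1 (hS q hq).2).2.2.2.1 (hno q hq)
      simp [this]
    have h2 : S = {3, 5, 7} := eq_of_subset_of_card_le h1 (by rw [hc]; simp)
    apply hn
    rw [h2]
    simp
  rw [← mul_prod_erase S (fun q => q - 1) hq]
  have h3 := odd2 (S.erase q) (fun p hp => hS p (mem_of_mem_erase hp))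
    (by rw [card_erase_of_mem hq, hc])
  calc 80 = 10 * 8 := by norm_num
    _ ≤ _ := Nat.mul_le_mul (by omega) h3

/-- primes at least five -/
theorem five1 (S : Finset ℕ) (hS : ∀ q ∈ S, q.Prime ∧ q ≠ 2 ∧ q ≠ 3) (hc : S.card = 1) :
    4 ≤ ∏ q ∈ S, (q - 1) := by
  refine step S ∅ 0 5 1 (by simp) hc ?_ ?_
  · intro q hq hlt
    have := (small q (hS q hq).1 (hS q hq).2.1).2.1 hlt
    exact absurd this (hS q hq).2.2
  · intro S' _ h0
    rw [card_eq_zero.1 h0, prod_empty]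

theorem five2 (S : Finset ℕ) (hS : ∀ q ∈ S, q.Prime ∧ q ≠ 2 ∧ q ≠ 3) (hc : S.card = 2) :
    24 ≤ ∏ q ∈ S, (q - 1) := by
  refine step S {5} 1 7 4 (by simp) hc ?_ ?_
  · intro q hq hlt
    have := (small q (hS q hq).1 (hS q hq).2.1).2.2.1 hlt
    have h3 := (hS q hq).2.2
    rw [mem_singleton]
    omega
  · intro S' hS' h1
    exact five1 S' (fun q hq => hS q (hS' hq)) h1

theorem five3 (S : Finset ℕ) (hS : ∀ q ∈ S, q.Prime ∧ q ≠ 2 ∧ q ≠ 3) (hc : S.card = 3) :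
    240 ≤ ∏ q ∈ S, (q - 1) := by
  refine step S {5, 7} 2 11 24 (by simp) hc ?_ ?_
  · intro q hq hlt
    have := (small q (hS q hq).1 (hS q hq).2.1).2.2.2.1 hlt
    have h3 := (hS q hq).2.2
    rw [mem_insert, mem_singleton]
    omega
  · intro S' hS' h1
    exact five2 S' (fun q hq => hS q (hS' hq)) h1

theorem five4 (S : Finset ℕ) (hS : ∀ q ∈ S, q.Prime ∧ q ≠ 2 ∧ q ≠ 3) (hc : S.card = 4) :
    2880 ≤ ∏ q ∈ S, (q - 1) := by
  refine step S {5, 7, 11} 3 13 240 (by simp) hc ?_ ?_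
  · intro q hq hlt
    have := (small q (hS q hq).1 (hS q hq).2.1).2.2.2.2 hlt
    have h3 := (hS q hq).2.2
    rw [mem_insert, mem_insert, mem_singleton]
    omega
  · intro S' hS' h1
    exact five3 S' (fun q hq => hS q (hS' hq)) h1

theorem prod_tt (A : Finset ℕ) (h2 : 2 ∉ A) :
    (if 2 ∈ A then 2 else 1) * ∏ q ∈ A, tt q = ∏ q ∈ A, (q - 1) := by
  rw [if_neg h2, one_mul]
  refine prod_congr rfl fun q hq => ?_
  unfold tt
  rw [if_neg]
  rintro rfl
  exact h2 hq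

theorem prod_tt' (A : Finset ℕ) (h2 : 2 ∈ A) :
    (if 2 ∈ A then 2 else 1) * ∏ q ∈ A, tt q = 4 * ∏ q ∈ A.erase 2, (q - 1) := by
  rw [if_pos h2, ← mul_prod_erase A tt h2]
  have h3 : tt 2 = 2 := rfl
  have h4 : ∏ q ∈ A.erase 2, tt q = ∏ q ∈ A.erase 2, (q - 1) := by
    refine prod_congr rfl fun q hq => ?_
    unfold tt
    rw [if_neg (ne_of_mem_erase hq)]
  rw [h3, h4]
  ring

end Num

theorem nb4_ok : S_nb4 := by
  intro K n P hP hB hn hn'
  refine lt_of_le_of_lt (Nat.mul_le_mul_right K (Num.NB_mono 4 n P.card (by norm_num) hn hn')) ?_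
  exact Num.nb4 K P.card (hn.trans hn') P hP hB rfl

theorem nb2_ok : S_nb2 := by
  intro k n P hP hB hn hn'
  refine lt_of_le_of_lt (Nat.mul_le_mul_right k (Num.NB_mono 2 n P.card (by norm_num) hn hn')) ?_
  exact Num.nb2 k P.card (hn.trans hn') P hP hB rfl

theorem num_ok : S_num := by
  intro P hP
  refine ⟨fun h2 A hA hc => ?_, fun h2 h3 A hA hc => ?_, fun h3 A hA hc => ?_,
    fun h357 A hA hc => ?_⟩
  · rw [Num.prod_tt A (fun h => h2 (hA h))]
    have := Num.odd4 A (fun q hq => ⟨hP q (hA hq), by rintro rfl; exact h2 (hA hq)⟩) hc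
    omega
  · rw [Num.prod_tt A (fun h => h2 (hA h))]
    have := Num.five4 A (fun q hq => ⟨hP q (hA hq), by rintro rfl; exact h2 (hA hq),
      by rintro rfl; exact h3 (hA hq)⟩) hc
    omega
  · by_cases h2 : 2 ∈ A
    · rw [Num.prod_tt' A h2]
      have := Num.five3 (A.erase 2) (fun q hq => ⟨hP q (hA (mem_of_mem_erase hq)),
        ne_of_mem_erase hq, by rintro rfl; exact h3 (hA (mem_of_mem_erase hq))⟩)
        (by rw [card_erase_of_mem h2, hc])
      omega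
    · rw [Num.prod_tt A h2]
      have := Num.five4 A (fun q hq => ⟨hP q (hA hq), by rintro rfl; exact h2 hq,
        by rintro rfl; exact h3 (hA hq)⟩) hc
      omega
  · by_cases h2 : 2 ∈ A
    · rw [Num.prod_tt' A h2]
      have := Num.odd3' (A.erase 2) (fun q hq => ⟨hP q (hA (mem_of_mem_erase hq)),
        ne_of_mem_erase hq⟩) (by rw [card_erase_of_mem h2, hc])
        (fun h => h357 ⟨hA (mem_of_mem_erase h.1), hA (mem_of_mem_erase h.2.1),
          hA (mem_of_mem_erase h.2.2)⟩)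
      omega
    · rw [Num.prod_tt A h2]
      have := Num.odd4 A (fun q hq => ⟨hP q (hA hq), by rintro rfl; exact h2 hq⟩) hc
      omega

end Pool.Agent.NH35.HS
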