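import Pool.Agent.NH35.HS.Stm
import Pool.Agent.NH35.HQ.OddQ

/-! The combinatorial theorem for odd levels, any number of prime factors. -/

set_option autoImplicit false
set_option linter.unusedSectionVars false

namespace Pool.Agent.NH35.HS

open Finset Pool.Agent.H916R2 Pool.Agent.NH35.HG Pool.Agent.NH35.HE Pool.Agent.NH35.HK
open Pool.Agent.NH35.HQ

/-- the bound of the weight of an element -/
lemma wtG58 {m k : ℕ} [NeZero m] (hk : 2 ≤ k) (h5 : S_nb4) (hodd : Odd m)
    (hB : Big k m.primeFactors) (I : Finset m.primeFactors) (hI : 4 ≤ I.card) (z : ZMod m) :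
    wtG I z < 1 / (k : ℚ) := by
  classical
  have hkQ : (0 : ℚ) < k := by exact_mod_cast (by omega : 0 < k)
  unfold wtG
  split_ifs with hIz
  · obtain ⟨A, hA⟩ : ∃ A, A = (ty z).map (Function.Embedding.subtype _) := ⟨_, rfl⟩
    have hAm : A ⊆ m.primeFactors := by rw [hA]; exact map63 _
    have hAc : A.card = (ty z).card := by rw [hA, card_map]
    have h2 : 2 ∉ A := by
      intro h
      have := Nat.dvd_of_mem_primeFactors (hAm h)
      obtain ⟨j, hj⟩ := hodd
      omega
    have h1 := h5 k I.card A (fun p hp => Nat.prime_of_mem_primeFactors (hAm hp))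
      (fun B hBA hB4 => hB B (hBA.trans hAm) hB4) hI (by rw [hAc]; exact card_le_card hIz)
    rw [if_neg h2, one_mul] at h1
    have h3 : ∏ q ∈ A, tt q ≤
        ∏ q ∈ ty z, Nat.totient (q.1 ^ (addOrderOf z).factorization q.1) := by
      rw [hA, ← prodty63]
      refine prod_le_prod' fun q hq => ?_
      have hqp := Nat.prime_of_mem_primeFactors q.2
      have hq2 : q.1 ≠ 2 := by
        intro h
        apply h2
        rw [hA, mem_map]
        exact ⟨q, hq, h⟩
      unfold tt
      rw [if_neg hq2]
      exact totodd63 hqp (mem_ty63.1 hq)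
    have h4 : NB I.card (ty z).card * k <
        ∏ q ∈ ty z, Nat.totient (q.1 ^ (addOrderOf z).factorization q.1) := by
      rw [← hAc]
      exact h1.trans_le h3
    have h6 : ((NB I.card (ty z).card : ℕ) : ℚ) * k <
        ∏ q ∈ ty z, (Nat.totient (q.1 ^ (addOrderOf z).factorization q.1) : ℚ) := by
      exact_mod_cast h4
    have h7 : (0 : ℚ) < ∏ q ∈ ty z, (Nat.totient (q.1 ^ (addOrderOf z).factorization q.1) : ℚ) :=
      lt_of_le_of_lt (by positivity) h6
    rw [div_lt_div_iff₀ h7 hkQ, one_mul]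
    exact h6
  · positivity

theorem oddG_of (h1 : Pool.Agent.NH35.HK.S_rem) (h2 : S_lev) (h3 : S_coreQ) (h4 : S_ccG)
    (h5 : S_nb4) : S_oddG := by
  classical
  intro m k _ hm hBig s hs hR hC Q _ c hc
  rcases Nat.lt_or_ge (Multiset.card s) 2 with hlt | hge
  · rcases Nat.lt_or_ge (Multiset.card s) 1 with h0 | h0
    · have hs0 : s = 0 := Multiset.card_eq_zero.1 (by omega)
      rw [hs0]
      simp
    · have hs1 : Multiset.card s = 1 := by omega
      obtain ⟨z, rfl⟩ := Multiset.card_eq_one.1 hs1
      have h4 := hR 1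
      have h5 := sum_count ({z} : Multiset (ZMod m)) (fun a => saw (((1 : (ZMod m)ˣ) : ZMod m) * a))
      simp only [smul_eq_mul] at h5
      rw [h4] at h5
      rw [Multiset.map_singleton, Multiset.sum_singleton, Units.val_one, one_mul] at h5
      have hz : z = 0 := by
        by_contra hz
        unfold saw at h5
        rw [if_neg hz] at h5
        obtain ⟨j, hj⟩ := hm
        omega
      rw [Multiset.map_singleton, Multiset.sum_singleton, hz]
      exact hc.half 0 (by simp)
  · have hk : 2 ≤ k := hge.trans hs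
    obtain ⟨s', hle, hord, ⟨hR', hC'⟩, hsum⟩ := rem63 k
      (fun s' : Multiset (ZMod m) => Rel (fun z : ZMod m => (s'.count z : ℤ)) ∧
        CD m (fun z : ZMod m => (s'.count z : ℤ)))
      (m.primeFactors.filter fun p => ¬ p ≤ k + 1) (by
        intro ℓ hℓ s' hs' hP
        rw [mem_filter] at hℓ
        obtain ⟨ha, hb, hc⟩ := h1 m ℓ hm (Nat.prime_of_mem_primeFactors hℓ.1)
          (Nat.dvd_of_mem_primeFactors hℓ.1) (by omega) s' (by omega) hP.1 hP.2
        exact ⟨⟨hb, hc⟩, ha⟩) s hs ⟨hR, hC⟩
    rw [hsum Q c hc]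
    obtain ⟨m0, kk, hprod, hm00, hcop, hpf, s0, hs0⟩ := lvl63 (fun p => p ≤ k + 1) s' hord
    have : NeZero m0 := ⟨hm00⟩
    have hodd0 : Odd m0 := Odd.of_dvd_nat hm (Dvd.intro_left _ hprod)
    have hcard0 : Multiset.card s0 ≤ k := by
      have e1 : Multiset.card s' = Multiset.card s0 := by rw [← hs0, Multiset.card_map]
      have e2 := Multiset.card_le_card hle
      omega
    obtain ⟨hl1, hl2⟩ := h2 m m0 kk hm hprod hcop s0
    rw [hs0] at hl1 hl2
    have hR0 := hl1 hR'
    have hC0 := hl2 hC'
    -- orders are odd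
    have hoo : ∀ z : ZMod m0, Odd (addOrderOf z) := by
      intro z
      have hom : addOrderOf z ∣ m0 := by
        refine addOrderOf_dvd_of_nsmul_eq_zero ?_
        rw [nsmul_eq_mul, ZMod.natCast_self, zero_mul]
      exact Odd.of_dvd_nat hodd0 hom
    have hGd : ∀ z : ZMod m0, Gd z := by
      intro z
      unfold Gd
      obtain ⟨j, hj⟩ := hoo z
      omega
    have hCX : CX m0 (fun z : ZMod m0 => (s0.count z : ℤ)) := by
      refine ⟨fun _ => hC0, fun h => ?_⟩
      obtain ⟨j, hj⟩ := hodd0
      omega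
    have hkQ : (0 : ℚ) < k := by exact_mod_cast (by omega : 0 < k)
    have hC4 : C4 univ (fun z : ZMod m0 => (s0.count z : ℤ)) := by
      intro C I _ hI4 _
      have hIn : I.Nonempty := card_pos.1 (by omega)
      refine h4 m0 (Or.inl hodd0) s0 I hIn ?_ C
      have hB0 : Big k m0.primeFactors := by rw [hpf]; exact hBig
      by_cases hs00 : s0 = 0
      · rw [hs00]
        simp
      · have h6 := Multiset.sum_lt_sum_of_nonempty (s := s0) (f := wtG I)
          (g := fun _ => 1 / (k : ℚ)) hs00 fun z _ => wtG58 hk h5 hodd0 hB0 I hI4 z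
        rw [Multiset.map_const', Multiset.sum_replicate, nsmul_eq_mul] at h6
        have h7 : (Multiset.card s0 : ℚ) * (1 / k) ≤ 1 := by
          rw [mul_one_div, div_le_one hkQ]
          exact_mod_cast hcard0
        exact h6.trans_le h7
    have hfin := h3 m0 (Or.inl hodd0) (fun z => (s0.count z : ℤ)) (fun z _ => hGd z) hR0 hCX hC4 Q
      (fun b => c (iota kk b)) (hc.comp_iota hprod)
    have h6 := sum_count s0 (fun b => c (iota kk b))
    rw [← hs0, Multiset.map_map]
    exact h6.symm.trans hfin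

end Pool.Agent.NH35.HS
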