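import Pool.Agent.NH35.HS.Sys

/-! The relations in the group ring (HS-1). -/

set_option autoImplicit false
set_option linter.unusedSectionVars false

namespace Pool.Agent.NH35.HS

open Finset Pool.Agent.NH35.HK Pool.Agent.NH35.HQ

namespace PiA

variable {ι : Type} [Fintype ι] [DecidableEq ι] {H : ι → Type} [∀ i, CommGroup (H i)]
  [∀ i, Fintype (H i)] [∀ i, DecidableEq (H i)]

/-- the map which sets the coordinate `q` to one -/
noncomputable def pp (q : ι) : GR H →+* GR H :=
  MonoidAlgebra.mapDomainRingHom (ZMod 2) (rh (univ.erase q))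

theorem rs_rs (q : ι) (S : Finset ι) (g : ∀ i, H i) :
    rs (univ.erase q) (rs S g) = rs (S.erase q) g := by
  funext i
  unfold rs
  by_cases hi : i = q
  · subst hi
    simp
  · simp [hi]

theorem pp_gr (q : ι) (S : Finset ι) (g : ∀ i, H i) :
    pp q (gr (rs S g)) = gr (rs (S.erase q) g) := by
  have h : pp q (gr (rs S g)) = gr (rs (univ.erase q) (rs S g)) :=
    MonoidAlgebra.mapDomain_single
  rw [h, rs_rs]

theorem filter_er (P : ι → Prop) [DecidablePred P] (A : Finset ι) (q : ι) :
    (A.filter P).erase q = (A.erase q).filter P := by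
  ext i
  simp only [mem_erase, mem_filter]
  tauto

theorem pp_ed (o : ι → ℕ) (q : ι) (A : Finset ι) (g : ∀ i, H i) (i : ι) :
    pp q (ed o A g i) = ed o (A.erase q) g i := by
  unfold ed
  rw [map_add, pp_gr, pp_gr, filter_er, filter_er]

theorem two (x : GR H) : x + x = 0 := by
  have h : (2 : ZMod 2) = 0 := rfl
  rw [← two_smul (ZMod 2) x, h, zero_smul]

theorem ed_q {o : ι → ℕ} (ho : Function.Injective o) (q : ι) (A : Finset ι) (g : ∀ i, H i) :
    ed o (A.erase q) g q = 0 := by
  unfold ed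
  have h : ((A.erase q).filter fun j => o q ≤ o j) = (A.erase q).filter fun j => o q < o j := by
    refine filter_congr fun j hj => ?_
    have : o j ≠ o q := fun h => (mem_erase.1 hj).1 (ho h)
    omega
  rw [h]
  exact two _

theorem map_fc (d : Dat H) (o : ι → ℕ) (I A : Finset ι) (q i : ι) :
    MvPolynomial.map (pp q) (fc d o I A i) =
      MvPolynomial.X none * MvPolynomial.C (ed o (A.erase q) d.κ i) +
      (∑ r ∈ A \ I, MvPolynomial.X (some r) * MvPolynomial.C (ed o (A.erase q) (d.τ r) i)) +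
      (if i ∈ A \ I then
        MvPolynomial.X (some i) * MvPolynomial.C (1 + gr (rs (A.erase q) (d.τ i))) else 0) := by
  unfold fc
  rw [map_add, map_add, map_mul, map_sum, MvPolynomial.map_X, MvPolynomial.map_C, pp_ed]
  congr 1
  · congr 1
    refine sum_congr rfl fun r _ => ?_
    rw [map_mul, MvPolynomial.map_X, MvPolynomial.map_C, pp_ed]
  · split_ifs
    · rw [map_mul, MvPolynomial.map_X, MvPolynomial.map_C, map_add, map_one, pp_gr]
    · rw [map_zero]

theorem fc_q (d : Dat H) {o : ι → ℕ} (ho : Function.Injective o) (I A : Finset ι) (q : ι) :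
    MvPolynomial.map (pp q) (fc d o I A q) = if q ∈ A \ I then
        MvPolynomial.X (some q) * MvPolynomial.C (1 + gr (rs (A.erase q) (d.τ q))) else 0 := by
  rw [map_fc, ed_q ho, map_zero, mul_zero, zero_add,
    sum_eq_zero fun r _ => by rw [ed_q ho, map_zero, mul_zero], zero_add]

theorem fc_ne (d : Dat H) (o : ι → ℕ) {I A : Finset ι} {q i : ι} (hqA : q ∈ A) (hqI : q ∉ I)
    (hi : i ≠ q) : MvPolynomial.map (pp q) (fc d o I A i) = fc d o I (A.erase q) i +
      MvPolynomial.X (some q) * MvPolynomial.C (ed o (A.erase q) (d.τ q) i) := by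
  have e1 : A \ I = insert q ((A.erase q) \ I) := by
    ext j
    simp only [mem_sdiff, mem_insert, mem_erase]
    constructor
    · rintro ⟨h1, h2⟩
      by_cases h : j = q
      · exact Or.inl h
      · exact Or.inr ⟨⟨h, h1⟩, h2⟩
    · rintro (rfl | ⟨⟨_, h1⟩, h2⟩)
      · exact ⟨hqA, hqI⟩
      · exact ⟨h1, h2⟩
  have e2 : q ∉ (A.erase q) \ I := fun h => (mem_erase.1 (mem_sdiff.1 h).1).1 rfl
  have e3 : i ∈ A \ I ↔ i ∈ (A.erase q) \ I := by
    rw [e1, mem_insert, or_iff_right hi]
  rw [map_fc, e1, sum_insert e2, ← e1]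
  unfold fc
  simp only [e3]
  ring

theorem prod_dvd {R : Type} [CommRing R] {σ : Type} (s : Finset ι) (F : ι → MvPolynomial σ R)
    (c : ι → MvPolynomial σ R) (X : MvPolynomial σ R) :
    X ∣ ∏ i ∈ s, (F i + X * c i) - ∏ i ∈ s, F i := by
  induction s using Finset.induction_on with
  | empty => simp
  | insert a s ha ih =>
    rw [prod_insert ha, prod_insert ha]
    obtain ⟨P, hP⟩ := ih
    refine ⟨(F a + X * c a) * P + c a * ∏ i ∈ s, F i, ?_⟩
    linear_combination (F a + X * c a) * hP

theorem mo_q (I A : Finset ι) (q : ι) : mo I (A.erase q) (some q) = 0 := by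
  unfold mo
  rw [Finsupp.add_apply, Finsupp.single_apply, if_neg (by simp), zero_add,
    Finsupp.finsetSum_apply]
  refine sum_eq_zero fun r hr => ?_
  rw [Finsupp.single_apply, if_neg]
  intro h
  exact (mem_erase.1 (mem_sdiff.1 hr).1).1 (Option.some.inj h)

theorem mo_A {I A : Finset ι} {q : ι} (hqA : q ∈ A) (hqI : q ∉ I) :
    mo I A = Finsupp.single (some q) 1 + mo I (A.erase q) := by
  have e1 : A \ I = insert q ((A.erase q) \ I) := by
    ext j
    simp only [mem_sdiff, mem_insert, mem_erase]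
    constructor
    · rintro ⟨h1, h2⟩
      by_cases h : j = q
      · exact Or.inl h
      · exact Or.inr ⟨⟨h, h1⟩, h2⟩
    · rintro (rfl | ⟨⟨_, h1⟩, h2⟩)
      · exact ⟨hqA, hqI⟩
      · exact ⟨h1, h2⟩
  have e2 : q ∉ (A.erase q) \ I := fun h => (mem_erase.1 (mem_sdiff.1 h).1).1 rfl
  unfold mo
  rw [e1, sum_insert e2]
  abel

end PiA

open PiA in
theorem pi_ok : S_pi := by
  intro ι _ _ H _ _ _ d o ho I _ A q hq
  change pp q (pe d o I A) = _
  unfold pe
  by_cases hIA : I ⊆ A
  · rw [if_pos hIA, ← MvPolynomial.coeff_map, map_prod, ← mul_prod_erase A _ hq, fc_q d ho]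
    by_cases hqI : q ∈ I
    · have h1 : ¬ I ⊆ A.erase q := fun h => (mem_erase.1 (h hqI)).1 rfl
      rw [if_neg h1, if_neg (fun h => (mem_sdiff.1 h).2 hqI), zero_mul, MvPolynomial.coeff_zero,
        mul_zero]
    · have h1 : I ⊆ A.erase q := fun i hi => mem_erase.2 ⟨fun h => hqI (h ▸ hi), hIA hi⟩
      rw [if_pos h1, if_pos (mem_sdiff.2 ⟨hq, hqI⟩), mul_assoc, mo_A hq hqI,
        MvPolynomial.coeff_X_mul, MvPolynomial.coeff_C_mul]
      congr 1
      rw [prod_congr rfl fun i hi => fc_ne d o hq hqI (mem_erase.1 hi).1]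
      obtain ⟨P, hP⟩ := prod_dvd (A.erase q) (fun i => fc d o I (A.erase q) i)
        (fun i => MvPolynomial.C (ed o (A.erase q) (d.τ q) i))
        (MvPolynomial.X (some q) : MvPolynomial (Option ι) (GR H))
      have h2 := congrArg (MvPolynomial.coeff (mo I (A.erase q))) hP
      rw [MvPolynomial.coeff_sub, MvPolynomial.coeff_X_mul', if_neg] at h2
      · exact sub_eq_zero.1 h2
      · rw [Finsupp.mem_support_iff, not_not]
        exact mo_q I A q
  · rw [if_neg hIA, if_neg (fun h => hIA (h.trans (erase_subset q A))), map_zero, mul_zero]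

end Pool.Agent.NH35.HS
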