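import Pool.Agent.NH35.HS.Sys

/-! The number of terms of the element of the group ring. -/

set_option autoImplicit false
set_option linter.unusedSectionVars false

namespace Pool.Agent.NH35.HS

open Finset Pool.Agent.NH35.HK Pool.Agent.NH35.HQ

namespace Plen45

section len

variable {G : Type} [CommGroup G]

/-- the number of terms -/
noncomputable def L (x : MonoidAlgebra (ZMod 2) G) : ℕ := x.coeff.support.card

theorem L_zero : L (0 : MonoidAlgebra (ZMod 2) G) = 0 := by
  unfold L
  rw [MonoidAlgebra.coeff_zero, Finsupp.support_zero, card_empty]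

theorem L_one : L (1 : MonoidAlgebra (ZMod 2) G) ≤ 1 := by
  unfold L
  rw [MonoidAlgebra.support_coeff_one, Finset.card_one]

theorem L_add (x y : MonoidAlgebra (ZMod 2) G) : L (x + y) ≤ L x + L y := by
  classical
  unfold L
  rw [MonoidAlgebra.coeff_add]
  exact (card_le_card Finsupp.support_add).trans (card_union_le _ _)

theorem L_mul (x y : MonoidAlgebra (ZMod 2) G) : L (x * y) ≤ L x * L y := by
  classical
  unfold L
  exact (card_le_card (MonoidAlgebra.support_coeff_mul_subset x y)).trans Finset.card_mul_le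

theorem L_sum {α : Type} (s : Finset α) (f : α → MonoidAlgebra (ZMod 2) G) :
    L (∑ i ∈ s, f i) ≤ ∑ i ∈ s, L (f i) := by
  classical
  induction s using Finset.induction_on with
  | empty => simp [L_zero]
  | insert i s hi ih =>
    rw [sum_insert hi, sum_insert hi]
    exact (L_add _ _).trans (by omega)

theorem L_single (g : G) : L (MonoidAlgebra.single g (1 : ZMod 2)) ≤ 1 := by
  unfold L
  rw [MonoidAlgebra.coeff_single]
  exact (card_le_card Finsupp.support_single_subset).trans (by simp)

theorem two_zero : (2 : MonoidAlgebra (ZMod 2) G) = 0 := by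
  have h : (2 : MonoidAlgebra (ZMod 2) G) = algebraMap (ZMod 2) _ 2 := by rw [map_ofNat]
  rw [h, show (2 : ZMod 2) = 0 from rfl, map_zero]

end len

section poly

variable {ι : Type} [DecidableEq ι] {G : Type} [CommGroup G]

/-- the exponents -/
noncomputable def ex (a : ℕ) (S : Finset ι) : Option ι →₀ ℕ :=
  Finsupp.single none a + ∑ r ∈ S, Finsupp.single (some r) 1

theorem ex_none (a : ℕ) (S : Finset ι) : ex a S none = a := by
  unfold ex
  rw [Finsupp.add_apply, Finsupp.single_eq_same, Finsupp.finsetSum_apply]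
  rw [sum_eq_zero, add_zero]
  intro r _
  rw [Finsupp.single_apply, if_neg (by simp)]

theorem ex_some (a : ℕ) (S : Finset ι) (r : ι) : ex a S (some r) = if r ∈ S then 1 else 0 := by
  unfold ex
  rw [Finsupp.add_apply, Finsupp.single_apply, if_neg (by simp), zero_add,
    Finsupp.finsetSum_apply]
  simp [Finsupp.single_apply]

theorem ex_ext {m : Option ι →₀ ℕ} {a : ℕ} {S : Finset ι} (h1 : m none = a)
    (h2 : ∀ r, m (some r) = if r ∈ S then 1 else 0) : m = ex a S := by
  ext o
  rcases o with _ | r
  · rw [h1, ex_none]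
  · rw [h2, ex_some]

theorem coeff_none (a : ℕ) (S : Finset ι) (e : MonoidAlgebra (ZMod 2) G)
    (P : MvPolynomial (Option ι) (MonoidAlgebra (ZMod 2) G)) :
    MvPolynomial.coeff (ex a S) (MvPolynomial.X none * MvPolynomial.C e * P) =
      if a = 0 then 0 else e * MvPolynomial.coeff (ex (a - 1) S) P := by
  rw [mul_assoc, MvPolynomial.coeff_X_mul']
  by_cases ha : a = 0
  · rw [if_neg (fun h => Finsupp.mem_support_iff.1 h (by rw [ex_none]; exact ha)), if_pos ha]
  · rw [if_pos (Finsupp.mem_support_iff.2 (by rw [ex_none]; exact ha)), if_neg ha,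
      MvPolynomial.coeff_C_mul]
    congr 2
    refine ex_ext ?_ fun r => ?_
    · rw [Finsupp.tsub_apply, ex_none, Finsupp.single_eq_same]
    · have h' : (none : Option ι) ≠ some r := by simp
      rw [Finsupp.tsub_apply, ex_some, Finsupp.single_apply (a := none), if_neg h', Nat.sub_zero]

theorem coeff_some (a : ℕ) (S : Finset ι) (r : ι) (c : MonoidAlgebra (ZMod 2) G)
    (P : MvPolynomial (Option ι) (MonoidAlgebra (ZMod 2) G)) :
    MvPolynomial.coeff (ex a S) (MvPolynomial.X (some r) * MvPolynomial.C c * P) =
      if r ∈ S then c * MvPolynomial.coeff (ex a (S.erase r)) P else 0 := by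
  rw [mul_assoc, MvPolynomial.coeff_X_mul']
  by_cases hr : r ∈ S
  · rw [if_pos (Finsupp.mem_support_iff.2 (by rw [ex_some, if_pos hr]; exact one_ne_zero)),
      if_pos hr, MvPolynomial.coeff_C_mul]
    congr 2
    refine ex_ext ?_ fun r' => ?_
    · rw [Finsupp.tsub_apply, ex_none, Finsupp.single_apply, if_neg (by simp), Nat.sub_zero]
    · rw [Finsupp.tsub_apply, ex_some, Finsupp.single_apply]
      by_cases h : r' = r
      · subst h
        simp [hr]
      · have h' : some r ≠ some r' := by simpa using fun e => h e.symm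
        rw [if_neg h', Nat.sub_zero]
        simp [h]
  · rw [if_neg (fun h => Finsupp.mem_support_iff.1 h (by rw [ex_some, if_neg hr])), if_neg hr]

theorem coeff_sq (a : ℕ) (S : Finset ι) (r : ι)
    (P : MvPolynomial (Option ι) (MonoidAlgebra (ZMod 2) G)) :
    MvPolynomial.coeff (ex a S) (MvPolynomial.X (some r) * (MvPolynomial.X (some r) * P)) = 0 := by
  have h1 := coeff_some a S r (1 : MonoidAlgebra (ZMod 2) G) (MvPolynomial.X (some r) * P)
  rw [map_one, mul_one] at h1
  rw [h1]
  by_cases hr : r ∈ S
  · rw [if_pos hr, one_mul]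
    have h2 := coeff_some a (S.erase r) r (1 : MonoidAlgebra (ZMod 2) G) P
    rw [map_one, mul_one, if_neg (notMem_erase r S)] at h2
    exact h2
  · rw [if_neg hr]

theorem desc_id (b s : ℕ) (h : s ≤ b) :
    (b + 1).descFactorial (s + 1) = b.descFactorial (s + 1) + (s + 1) * b.descFactorial s := by
  rw [Nat.succ_descFactorial_succ, Nat.descFactorial_succ, ← Nat.add_mul]
  congr 1
  omega

/-- the bound for a product -/
theorem bound (R : Finset ι) (e : ι → MonoidAlgebra (ZMod 2) G)
    (c : ι → ι → MonoidAlgebra (ZMod 2) G) (he : ∀ i, L (e i) ≤ 2) (hc : ∀ i r, L (c i r) ≤ 2)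
    (B : Finset ι) : ∀ (a : ℕ) (S : Finset ι), a + S.card = B.card →
      L (MvPolynomial.coeff (ex a S) (∏ i ∈ B, (MvPolynomial.X none * MvPolynomial.C (e i) +
        ∑ r ∈ R, MvPolynomial.X (some r) * MvPolynomial.C (c i r)))) ≤
      2 ^ B.card * B.card.descFactorial S.card := by
  induction B using Finset.induction_on with
  | empty =>
    intro a S h
    rw [card_empty] at h
    have ha : a = 0 := by omega
    have hS : S = ∅ := by
      rw [← card_eq_zero]
      omega
    subst ha hS
    rw [prod_empty, card_empty, Nat.descFactorial_zero]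
    have h0 : ex 0 (∅ : Finset ι) = 0 := by
      symm
      refine ex_ext rfl fun r => ?_
      simp
    rw [h0, MvPolynomial.coeff_zero_one]
    simpa using L_one (G := G)
  | insert i B hi ih =>
    intro a S h
    rw [card_insert_of_notMem hi] at h ⊢
    rw [prod_insert hi, add_mul, sum_mul, MvPolynomial.coeff_add, coeff_none,
      MvPolynomial.coeff_sum]
    set b := B.card with hb
    set P := ∏ i ∈ B, (MvPolynomial.X none * MvPolynomial.C (e i) +
        ∑ r ∈ R, MvPolynomial.X (some r) * MvPolynomial.C (c i r)) with hP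
    have h1 : L (if a = 0 then 0 else e i * MvPolynomial.coeff (ex (a - 1) S) P) ≤
        2 * (2 ^ b * b.descFactorial S.card) := by
      by_cases ha : a = 0
      · rw [if_pos ha, L_zero]
        exact Nat.zero_le _
      · rw [if_neg ha]
        exact (L_mul _ _).trans (Nat.mul_le_mul (he i) (ih (a - 1) S (by omega)))
    have h2 : L (∑ r ∈ R, MvPolynomial.coeff (ex a S)
        (MvPolynomial.X (some r) * MvPolynomial.C (c i r) * P)) ≤
        S.card * (2 * (2 ^ b * b.descFactorial (S.card - 1))) := by
      refine (L_sum _ _).trans ?_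
      have h3 : ∀ r ∈ R, L (MvPolynomial.coeff (ex a S)
          (MvPolynomial.X (some r) * MvPolynomial.C (c i r) * P)) ≤
          if r ∈ S then 2 * (2 ^ b * b.descFactorial (S.card - 1)) else 0 := by
        intro r _
        rw [coeff_some]
        by_cases hr : r ∈ S
        · rw [if_pos hr, if_pos hr]
          have h4 := ih a (S.erase r) (by
            rw [card_erase_of_mem hr]
            have := card_pos.2 ⟨r, hr⟩
            omega)
          rw [card_erase_of_mem hr] at h4
          exact (L_mul _ _).trans (Nat.mul_le_mul (hc i r) h4)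
        · rw [if_neg hr, if_neg hr, L_zero]
      refine (sum_le_sum h3).trans ?_
      rw [← sum_filter, sum_const, smul_eq_mul]
      apply Nat.mul_le_mul_right
      apply card_le_card
      intro r hr
      exact (mem_filter.1 hr).2
    refine (L_add _ _).trans ((Nat.add_le_add h1 h2).trans ?_)
    rcases Nat.eq_zero_or_pos S.card with h0 | h0
    · rw [h0, Nat.descFactorial_zero, Nat.descFactorial_zero, pow_succ]
      omega
    · obtain ⟨s, hs⟩ : ∃ s, S.card = s + 1 := ⟨S.card - 1, by omega⟩
      rw [hs, Nat.add_sub_cancel, desc_id b s (by omega), pow_succ]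
      apply le_of_eq
      ring

end poly

variable {ι : Type} [Fintype ι] [DecidableEq ι] {H : ι → Type} [∀ i, CommGroup (H i)]
  [∀ i, Fintype (H i)] [∀ i, DecidableEq (H i)]

theorem gr_mul (g h : ∀ i, H i) : gr g * gr h = gr (g * h) := by
  unfold gr
  rw [MonoidAlgebra.single_mul_single, one_mul]

theorem gr_one : gr (1 : ∀ i, H i) = 1 := rfl

theorem gr_self (g : ∀ i, H i) : gr g + gr g = 0 := by
  rw [← two_mul, two_zero, zero_mul]

theorem L_ed (o : ι → ℕ) (A : Finset ι) (g : ∀ i, H i) (i : ι) : L (ed o A g i) ≤ 2 := by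
  unfold ed gr
  exact (L_add _ _).trans (Nat.add_le_add (L_single _) (L_single _))

theorem rs_mul (S : Finset ι) (g h : ∀ i, H i) : rs S (g * h) = rs S g * rs S h :=
  (rh S).map_mul g h

theorem rs_one (S : Finset ι) : rs S (1 : ∀ i, H i) = 1 := (rh S).map_one

theorem rs_empty (g : ∀ i, H i) : rs ∅ g = 1 := by
  funext i
  simp [rs]

/-- the square of the coefficient of minus one vanishes -/
theorem ed_sq (d : Dat H) (o : ι → ℕ) (A : Finset ι) (i : ι) :
    ed o A d.κ i * ed o A d.κ i = 0 := by
  have h : ∀ S : Finset ι, gr (rs S d.κ) * gr (rs S d.κ) = 1 := fun S => by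
    rw [gr_mul, ← rs_mul, d.hκ, rs_one, gr_one]
  unfold ed
  have e : ∀ x y : GR H, (x + y) * (x + y) = x * x + y * y := fun x y => by
    have : (x + y) * (x + y) = x * x + y * y + 2 * (x * y) := by ring
    rw [this, two_zero, zero_mul, add_zero]
  rw [e, h, h, ← two_mul, two_zero, zero_mul]

/-- at the coordinate itself -/
theorem ed_self (d : Dat H) {o : ι → ℕ} (ho : Function.Injective o) (A : Finset ι) (i : ι) :
    ed o A (d.τ i) i = 0 := by
  have h : rs (A.filter fun j => o i ≤ o j) (d.τ i) = rs (A.filter fun j => o i < o j) (d.τ i) := by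
    funext j
    unfold rs
    by_cases hj : j = i
    · subst hj
      simp [d.hτ]
    · have : o i ≤ o j ↔ o i < o j := by
        refine ⟨fun h => lt_of_le_of_ne h fun h' => hj (ho h').symm, le_of_lt⟩
      simp [this]
  unfold ed
  rw [h, gr_self]

/-- telescoping -/
theorem tele {o : ι → ℕ} (ho : Function.Injective o) (g : ∀ i, H i) (A : Finset ι) :
    ∑ i ∈ A, ed o A g i = 1 + gr (rs A g) := by
  induction A using Finset.induction_on_min_value o with
  | empty => rw [sum_empty, rs_empty, gr_one, ← two_mul, two_zero, zero_mul]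
  | insert i s hi hmin ih =>
    have hlt : ∀ x ∈ s, o i < o x := fun x hx =>
      lt_of_le_of_ne (hmin x hx) fun h => hi (ho h ▸ hx)
    rw [sum_insert hi]
    have h1 : ∀ x ∈ s, ed o (insert i s) g x = ed o s g x := by
      intro x hx
      unfold ed
      have h2 := hlt x hx
      have e1 : (insert i s).filter (fun j => o x ≤ o j) = s.filter fun j => o x ≤ o j := by
        rw [filter_insert, if_neg (by omega)]
      have e2 : (insert i s).filter (fun j => o x < o j) = s.filter fun j => o x < o j := by
        rw [filter_insert, if_neg (by omega)]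
      rw [e1, e2]
    rw [sum_congr rfl h1, ih]
    have h3 : ed o (insert i s) g i = gr (rs (insert i s) g) + gr (rs s g) := by
      unfold ed
      have e1 : (insert i s).filter (fun j => o i ≤ o j) = insert i s := by
        rw [filter_eq_self]
        intro x hx
        rcases mem_insert.1 hx with rfl | hx
        · exact le_rfl
        · exact (hlt x hx).le
      have e2 : (insert i s).filter (fun j => o i < o j) = s := by
        rw [filter_insert, if_neg (by omega), filter_eq_self]
        exact hlt
      rw [e1, e2]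
    rw [h3]
    have h4 : gr (rs (insert i s) g) + gr (rs s g) + (1 + gr (rs s g)) =
        1 + gr (rs (insert i s) g) + (gr (rs s g) + gr (rs s g)) := by ring
    rw [h4, gr_self, add_zero]

/-- the coefficients -/
noncomputable def cc (d : Dat H) (o : ι → ℕ) (A : Finset ι) (i r : ι) : GR H :=
  if r = i then 1 + gr (rs A (d.τ i)) else ed o A (d.τ r) i

theorem L_cc (d : Dat H) (o : ι → ℕ) (A : Finset ι) (i r : ι) : L (cc d o A i r) ≤ 2 := by
  unfold cc
  split_ifs
  · exact (L_add _ _).trans (Nat.add_le_add L_one (L_single _))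
  · exact L_ed _ _ _ _

theorem fc_eq (d : Dat H) {o : ι → ℕ} (ho : Function.Injective o) (I A : Finset ι) (i : ι) :
    fc d o I A i = MvPolynomial.X none * MvPolynomial.C (ed o A d.κ i) +
      ∑ r ∈ A \ I, MvPolynomial.X (some r) * MvPolynomial.C (cc d o A i r) := by
  unfold fc
  rw [add_assoc]
  congr 1
  by_cases hi : i ∈ A \ I
  · rw [if_pos hi, ← sum_erase_add _ _ hi, ← sum_erase_add _ _ hi, ed_self d ho, map_zero, mul_zero,
      add_zero]
    congr 1
    · refine sum_congr rfl fun r hr => ?_
      unfold cc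
      rw [if_neg (mem_erase.1 hr).1]
    · unfold cc
      rw [if_pos rfl]
  · rw [if_neg hi, add_zero]
    refine sum_congr rfl fun r hr => ?_
    unfold cc
    rw [if_neg]
    rintro rfl
    exact hi hr

/-- the sum of the factors -/
theorem fc_sum (d : Dat H) {o : ι → ℕ} (ho : Function.Injective o) (I A : Finset ι) :
    ∑ i ∈ A, fc d o I A i = MvPolynomial.X none * MvPolynomial.C (1 + gr (rs A d.κ)) := by
  unfold fc
  rw [sum_add_distrib, sum_add_distrib, ← mul_sum, ← map_sum, tele ho, sum_comm, add_assoc]
  have h1 : ∀ r ∈ A \ I, ∑ i ∈ A, (MvPolynomial.X (some r) : MvPolynomial (Option ι) (GR H)) *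
      MvPolynomial.C (ed o A (d.τ r) i) =
      MvPolynomial.X (some r) * MvPolynomial.C (1 + gr (rs A (d.τ r))) := by
    intro r _
    rw [← mul_sum, ← map_sum, tele ho]
  rw [sum_congr rfl h1, ← sum_filter]
  have h2 : A.filter (fun i => i ∈ A \ I) = A \ I := by
    ext i
    simp only [mem_filter, mem_sdiff]
    tauto
  rw [h2, ← two_mul]
  have h3 : (2 : MvPolynomial (Option ι) (GR H)) = MvPolynomial.C 2 := by
    rw [map_ofNat]
  rw [h3, two_zero, map_zero, zero_mul, add_zero]

/-- the squares of the factors do not contribute -/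
theorem coeff_fc_sq (d : Dat H) {o : ι → ℕ} (ho : Function.Injective o) (I A : Finset ι) (i : ι)
    (a : ℕ) (S : Finset ι) (P : MvPolynomial (Option ι) (GR H)) :
    MvPolynomial.coeff (ex a S) (fc d o I A i * (fc d o I A i * P)) = 0 := by
  have htwo : (2 : MvPolynomial (Option ι) (GR H)) = 0 := by
    have h3 : (2 : MvPolynomial (Option ι) (GR H)) = MvPolynomial.C 2 := by
      rw [map_ofNat]
    rw [h3, two_zero, map_zero]
  have hadd : ∀ x y : MvPolynomial (Option ι) (GR H), (x + y) * (x + y) = x * x + y * y :=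
    fun x y => by
      have : (x + y) * (x + y) = x * x + y * y + 2 * (x * y) := by ring
      rw [this, htwo, zero_mul, add_zero]
  have hsum : ∀ (T : Finset ι) (f : ι → MvPolynomial (Option ι) (GR H)),
      (∑ r ∈ T, f r) * (∑ r ∈ T, f r) = ∑ r ∈ T, f r * f r := by
    intro T f
    induction T using Finset.induction_on with
    | empty => simp
    | insert r T hr ih => rw [sum_insert hr, sum_insert hr, hadd, ih]
  have h1 : fc d o I A i * fc d o I A i = ∑ r ∈ A \ I, MvPolynomial.X (some r) *
      (MvPolynomial.X (some r) * MvPolynomial.C (cc d o A i r * cc d o A i r)) := by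
    rw [fc_eq d ho, hadd, hsum]
    have e1 : ((MvPolynomial.X none : MvPolynomial (Option ι) (GR H)) *
        MvPolynomial.C (ed o A d.κ i)) *
        (MvPolynomial.X none * MvPolynomial.C (ed o A d.κ i)) =
        (MvPolynomial.X none * MvPolynomial.X none) *
          MvPolynomial.C (ed o A d.κ i * ed o A d.κ i) := by
      rw [map_mul]
      ring
    rw [e1, ed_sq, map_zero, mul_zero, zero_add]
    refine sum_congr rfl fun r _ => ?_
    rw [map_mul]
    ring
  rw [← mul_assoc, h1, sum_mul, MvPolynomial.coeff_sum]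
  refine sum_eq_zero fun r _ => ?_
  rw [mul_assoc, mul_assoc]
  exact coeff_sq a S r _

end Plen45

open Plen45 in
theorem plen_ok : S_plen := by
  intro ι _ _ H _ _ _ d o ho I A hI hIA
  obtain ⟨j, hj⟩ := hI
  have hjA : j ∈ A := hIA hj
  change L (pe d o I A) ≤ _
  have hn : 1 ≤ I.card := card_pos.2 ⟨j, hj⟩
  have hna : I.card ≤ A.card := card_le_card hIA
  have hR : (A \ I).card = A.card - I.card := card_sdiff_of_subset hIA
  set K := ∏ i ∈ A.erase j, fc d o I A i with hK
  have key : MvPolynomial.coeff (ex I.card (A \ I)) (∏ i ∈ A, fc d o I A i) =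
      (1 + gr (rs A d.κ)) * MvPolynomial.coeff (ex (I.card - 1) (A \ I)) K := by
    have h1 : (∑ i ∈ A, fc d o I A i) * K =
        MvPolynomial.X none * MvPolynomial.C (1 + gr (rs A d.κ)) * K := by
      rw [fc_sum d ho]
    have h2 := congrArg (MvPolynomial.coeff (ex I.card (A \ I))) h1
    rw [coeff_none, if_neg (by omega)] at h2
    rw [← h2, ← add_sum_erase A _ hjA, add_mul, MvPolynomial.coeff_add, sum_mul,
      MvPolynomial.coeff_sum, sum_eq_zero, add_zero, hK, mul_prod_erase A _ hjA]
    intro i hi
    rw [hK, ← mul_prod_erase _ _ hi]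
    exact coeff_fc_sq d ho I A i _ _ _
  have hpe : pe d o I A = (1 + gr (rs A d.κ)) *
      MvPolynomial.coeff (ex (I.card - 1) (A \ I)) K := by
    unfold pe
    rw [if_pos hIA]
    exact key
  rw [hpe]
  have hK2 : K = ∏ i ∈ A.erase j, (MvPolynomial.X none * MvPolynomial.C (ed o A d.κ i) +
      ∑ r ∈ A \ I, MvPolynomial.X (some r) * MvPolynomial.C (cc d o A i r)) := by
    rw [hK]
    exact prod_congr rfl fun i _ => fc_eq d ho I A i
  have hcard : (A.erase j).card = A.card - 1 := card_erase_of_mem hjA
  have hb := bound (A \ I) (fun i => ed o A d.κ i) (cc d o A) (fun i => L_ed _ _ _ _)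
    (fun i r => L_cc _ _ _ _ _) (A.erase j) (I.card - 1) (A \ I) (by omega)
  rw [← hK2, hcard, hR] at hb
  have h2 : L (1 + gr (rs A d.κ)) ≤ 2 := (L_add _ _).trans (Nat.add_le_add L_one (L_single _))
  refine (Plen45.L_mul _ _).trans ((Nat.mul_le_mul h2 hb).trans (le_of_eq ?_))
  unfold NB
  obtain ⟨a, ha⟩ : ∃ a, A.card = a + 1 := ⟨A.card - 1, by omega⟩
  rw [ha, Nat.add_sub_cancel, pow_succ]
  ring

end Pool.Agent.NH35.HS
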