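import Pool.Agent.NH35.HS.Sys

/-! (G5) the functions `psg` form a system. -/

set_option autoImplicit false
set_option linter.unusedSectionVars false

namespace Pool.Agent.NH35.HS

open Finset Pool.Agent.NH35.HK Pool.Agent.NH35.HQ

namespace PsgAux

variable {ι : Type} [Fintype ι] [DecidableEq ι] {H : ι → Type} [∀ i, CommGroup (H i)]
  [∀ i, Fintype (H i)] [∀ i, DecidableEq (H i)]

theorem rs_mul (S : Finset ι) (g h : ∀ i, H i) : rs S (g * h) = rs S g * rs S h :=
  (rh S).map_mul g h

theorem rs_inv (S : Finset ι) (g : ∀ i, H i) : rs S g⁻¹ = (rs S g)⁻¹ :=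
  (rh S).map_inv g

theorem rs_congr (S : Finset ι) {g h : ∀ i, H i} (e : ∀ i ∈ S, g i = h i) : rs S g = rs S h := by
  funext i
  unfold rs
  by_cases hi : i ∈ S
  · rw [if_pos hi, if_pos hi, e i hi]
  · rw [if_neg hi, if_neg hi]

theorem gr_mul_coeff (g h : ∀ i, H i) (x : GR H) : (gr g * x).coeff h = x.coeff (g⁻¹ * h) := by
  unfold gr
  rw [MonoidAlgebra.coeff_single_mul_apply, one_mul]

theorem one_add_coeff (g h : ∀ i, H i) (x : GR H) :
    ((1 + gr g) * x).coeff h = x.coeff h + x.coeff (g⁻¹ * h) := by
  rw [add_mul, one_mul, MonoidAlgebra.coeff_add, Finsupp.add_apply, gr_mul_coeff]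

theorem map_coeff (q : ι) (h : ∀ i, H i) (hq : h q = 1) (x : GR H) :
    (MonoidAlgebra.mapDomainRingHom (ZMod 2) (rh (univ.erase q)) x).coeff h =
      ∑ v : H q, x.coeff (Function.update h q v) := by
  induction x using MonoidAlgebra.induction_linear with
  | zero => simp
  | add x y hx hy =>
    rw [map_add, MonoidAlgebra.coeff_add, Finsupp.add_apply, hx, hy, ← Finset.sum_add_distrib]
    rfl
  | single g r =>
    have e1 : MonoidAlgebra.mapDomainRingHom (ZMod 2) (rh (univ.erase q))
        (MonoidAlgebra.single g r : GR H) = MonoidAlgebra.single (rs (univ.erase q) g) r := by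
      exact MonoidAlgebra.mapDomain_single
    rw [e1]
    simp only [MonoidAlgebra.coeff_single]
    rw [Finsupp.single_apply]
    by_cases hg : rs (univ.erase q) g = h
    · rw [if_pos hg]
      have hg' : Function.update h q (g q) = g := by
        funext i
        by_cases hi : i = q
        · subst hi; simp
        · rw [Function.update_of_ne hi, ← hg]
          unfold rs
          rw [if_pos (Finset.mem_erase.mpr ⟨hi, mem_univ i⟩)]
      rw [Finset.sum_eq_single (g q)]
      · rw [hg', Finsupp.single_eq_same]
      · intro v _ hv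
        rw [Finsupp.single_apply, if_neg]
        intro h'
        apply hv
        have := congrFun h' q
        rw [Function.update_self] at this
        exact this.symm
      · intro h'; exact absurd (mem_univ _) h'
    · rw [if_neg hg]
      symm
      refine Finset.sum_eq_zero fun v _ => ?_
      rw [Finsupp.single_apply, if_neg]
      intro h'
      apply hg
      funext i
      unfold rs
      by_cases hi : i = q
      · subst hi
        simp [hq]
      · rw [if_pos (Finset.mem_erase.mpr ⟨hi, mem_univ i⟩), h', Function.update_of_ne hi]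

theorem pe_zero (d : Dat H) (o : ι → ℕ) {I A : Finset ι} (h : ¬ I ⊆ A) : pe d o I A = 0 := by
  unfold pe; rw [if_neg h]

theorem psg_zero (d : Dat H) (o : ι → ℕ) (w : ∀ i, H i) {I A : Finset ι} (h : ¬ I ⊆ A) :
    psg d o I w A = 0 := by
  funext u
  unfold psg
  rw [pe_zero d o h]
  rfl

theorem prod_coeff (d : Dat H) (J : Finset ι) : ∀ g : ∀ i, H i,
    (∏ i ∈ J, (1 + gr (rs {i} d.κ)) : GR H).coeff g =
      if ∀ i, i ∉ J → g i = 1 then ∏ i ∈ J, (if g i = 1 ∨ g i = d.κ i then 1 else 0) else 0 := by
  induction J using Finset.induction_on with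
  | empty =>
    intro g
    rw [Finset.prod_empty, MonoidAlgebra.one_def, MonoidAlgebra.coeff_single, Finsupp.single_apply,
      Finset.prod_empty]
    by_cases h : g = 1
    · rw [if_pos h.symm, if_pos]
      intro i _; rw [h]; rfl
    · rw [if_neg (fun h' => h h'.symm), if_neg]
      intro h'
      exact h (funext fun i => h' i (Finset.notMem_empty i))
  | insert a J ha ih =>
    intro g
    rw [Finset.prod_insert ha, one_add_coeff, ih, ih, Finset.prod_insert ha]
    have ek : ∀ i, i ≠ a → ((rs {a} d.κ)⁻¹ * g) i = g i := by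
      intro i hi
      simp only [Pi.mul_apply, Pi.inv_apply]
      unfold rs
      rw [if_neg (by simpa using hi), inv_one, one_mul]
    have ea : ((rs {a} d.κ)⁻¹ * g) a = (d.κ a)⁻¹ * g a := by
      simp only [Pi.mul_apply, Pi.inv_apply]
      unfold rs
      rw [if_pos (by simp)]
    have eP : (∏ i ∈ J, (if ((rs {a} d.κ)⁻¹ * g) i = 1 ∨ ((rs {a} d.κ)⁻¹ * g) i = d.κ i then
        (1 : ZMod 2) else 0)) = ∏ i ∈ J, (if g i = 1 ∨ g i = d.κ i then 1 else 0) := by
      refine Finset.prod_congr rfl fun i hi => ?_
      rw [ek i (fun h => ha (h ▸ hi))]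
    rw [eP]
    by_cases hout : ∀ i, i ∉ insert a J → g i = 1
    · rw [if_pos hout]
      have c1 : (∀ i, i ∉ J → g i = 1) ↔ g a = 1 := by
        constructor
        · intro h; exact h a ha
        · intro h i hi
          by_cases hia : i = a
          · rw [hia]; exact h
          · exact hout i (by simp [hia, hi])
      have c2 : (∀ i, i ∉ J → ((rs {a} d.κ)⁻¹ * g) i = 1) ↔ g a = d.κ a := by
        constructor
        · intro h
          have := h a ha
          rw [ea, inv_mul_eq_one] at this
          exact this.symm
        · intro h i hi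
          by_cases hia : i = a
          · subst hia
            rw [ea, h, inv_mul_cancel]
          · rw [ek i hia]
            exact hout i (by simp [hia, hi])
      simp only [c1, c2]
      by_cases h1 : g a = 1
      · have h2 : g a ≠ d.κ a := by rw [h1]; exact fun h => d.hκ1 a h.symm
        simp [h1]
        intro h; exact absurd h.symm (d.hκ1 a)
      · by_cases h2 : g a = d.κ a
        · simp [h2]
          intro h; exact absurd h (d.hκ1 a)
        · simp [h1, h2]
    · rw [if_neg hout]
      rw [if_neg, if_neg, add_zero]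
      · intro h
        apply hout
        intro i hi
        have hia : i ≠ a := fun h' => hi (by simp [h'])
        have hiJ : i ∉ J := fun h' => hi (by simp [h'])
        have := h i hiJ
        rwa [ek i hia] at this
      · intro h
        apply hout
        intro i hi
        exact h i (fun h' => hi (by simp [h']))

end PsgAux

open PsgAux in
theorem psg_of (h1 : S_pi) (h2 : S_kap) (h3 : S_lead) : S_psg := by
  intro ι _ _ H _ _ _ d o ho I hI w
  refine ⟨⟨fun A => ?_, ?_, fun A q hq u => ?_⟩, fun A u => ?_, ?_, fun A hA => psg_zero d o w hA⟩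
  · intro u v huv
    unfold psg
    rw [rs_congr A (g := w⁻¹ * u) (h := w⁻¹ * v) fun i hi => by
      simp only [Pi.mul_apply, huv i hi]]
  · exact psg_zero d o w (fun h => hI.ne_empty (Finset.subset_empty.mp h))
  · have hh : rs (A.erase q) (w⁻¹ * u) q = 1 := by
      unfold rs; rw [if_neg (Finset.notMem_erase q A)]
    have e1 : ∀ s : H q, psg d o I w A (Function.update u q s) =
        (pe d o I A).coeff (Function.update (rs (A.erase q) (w⁻¹ * u)) q ((w q)⁻¹ * s)) := by
      intro s
      unfold psg
      congr 1
      funext i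
      by_cases hi : i = q
      · subst hi
        rw [Function.update_self]
        unfold rs
        rw [if_pos hq]
        simp
      · rw [Function.update_of_ne hi]
        unfold rs
        by_cases hiA : i ∈ A
        · rw [if_pos hiA, if_pos (Finset.mem_erase.mpr ⟨hi, hiA⟩)]
          simp [Function.update_of_ne hi]
        · rw [if_neg hiA, if_neg fun h => hiA (Finset.mem_of_mem_erase h)]
    unfold NN
    simp only [e1]
    have e2 : ∑ s : H q, (pe d o I A).coeff (Function.update (rs (A.erase q) (w⁻¹ * u)) q
        ((w q)⁻¹ * s)) = ∑ v : H q, (pe d o I A).coeff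
        (Function.update (rs (A.erase q) (w⁻¹ * u)) q v) :=
      Fintype.sum_equiv (Equiv.mulLeft (w q)⁻¹) _ _ (fun s => rfl)
    rw [e2, ← map_coeff q _ hh, h1 ι H d o ho I hI A q hq, one_add_coeff, CharTwo.sub_eq_add]
    unfold psg
    congr 2
    rw [← rs_inv, ← rs_mul]
    congr 1
    rw [mul_left_comm]
  · by_cases hA : I ⊆ A
    · have hk := h2 ι H d o ho I A hA
      have e : psg d o I w A (d.κ * u) = psg d o I w A u := by
        unfold psg
        conv_lhs => rw [← hk]
        rw [gr_mul_coeff, mul_left_comm w⁻¹ d.κ u, rs_mul A d.κ, inv_mul_cancel_left]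
      rw [e, CharTwo.neg_eq]
    · rw [psg_zero d o w hA]; simp
  · funext u
    unfold psg
    rw [h3 ι H d o ho I, prod_coeff, if_pos]
    · unfold fI sg
      refine Finset.prod_congr rfl fun i hi => ?_
      have e : rs I (w⁻¹ * u) i = (w i)⁻¹ * u i := by unfold rs; rw [if_pos hi]; rfl
      rw [e]
      have e1 : (w i)⁻¹ * u i = 1 ↔ u i = w i := by rw [inv_mul_eq_one, eq_comm]
      have e2 : (w i)⁻¹ * u i = d.κ i ↔ u i = d.κ i * w i := by
        rw [inv_mul_eq_iff_eq_mul, mul_comm]
      simp only [e1, e2]
    · intro i hi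
      unfold rs; rw [if_neg hi]

end Pool.Agent.NH35.HS
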