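import Pool.Agent.NH35.HS.Sys
import Pool.Agent.NH35.HQ.Stm

/-! Diagonal hypersurfaces whose degree has any number of prime factors: statements. -/

set_option autoImplicit false
set_option linter.unusedSectionVars false

namespace Pool.Agent.NH35.HS

open Finset Pool.Agent.H916R2 Pool.Agent.NH35.HG Pool.Agent.NH35.HE Pool.Agent.NH35.HK
open Pool.Agent.NH35.HQ

/-- the weight of an element for the set `I` -/
noncomputable def wtG {m : ℕ} (I : Finset m.primeFactors) (z : ZMod m) : ℚ := by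
  classical
  exact if I ⊆ ty z then (NB I.card (ty z).card : ℚ) /
    ∏ q ∈ ty z, (Nat.totient (q.1 ^ (addOrderOf z).factorization q.1) : ℚ) else 0

/-- (G7) the condition modulo two by counting, for any number of prime factors -/
def S_ccG : Prop := ∀ (m : ℕ) [NeZero m], Adm m → ∀ s : Multiset (ZMod m),
  ∀ I : Finset m.primeFactors, I.Nonempty → (s.map (wtG I)).sum < 1 → ∀ C : Co m,
    ∃ (w : ∀ q : m.primeFactors, HH m q) (c : ZMod m → ZMod 2), OddDist c ∧
      (∀ A, ¬ I ⊆ A → syF C c A = 0) ∧ syF C c I = fI C.d I w ∧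
      ∑ z, (s.count z : ℤ) • c z = 0

/-- `q - 1` for odd `q`, and two for `q = 2` -/
def tt (q : ℕ) : ℕ := if q = 2 then 2 else q - 1

/-- the size condition: sets of four primes -/
def Big (K : ℕ) (P : Finset ℕ) : Prop :=
  ∀ A ⊆ P, A.card = 4 → 16 * K < (if 2 ∈ A then 2 else 1) * ∏ q ∈ A, tt q

/-- (G8a) from four primes to more primes -/
def S_nb4 : Prop := ∀ (K n : ℕ) (P : Finset ℕ), (∀ p ∈ P, p.Prime) → Big K P → 4 ≤ n →
  n ≤ P.card → NB n P.card * K < (if 2 ∈ P then 2 else 1) * ∏ q ∈ P, tt q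

/-- (G8b) from two primes to more primes, all primes at least five -/
def S_nb2 : Prop := ∀ (k n : ℕ) (P : Finset ℕ), (∀ p ∈ P, p.Prime ∧ 5 ≤ p) →
  (∀ p ∈ P, ∀ q ∈ P, p ≠ q → 4 * k < (p - 1) * (q - 1)) → 2 ≤ n → n ≤ P.card →
  NB n P.card * k < ∏ q ∈ P, (q - 1)

/-- (G8) the combinatorial theorem for odd levels -/
def S_oddG : Prop := ∀ (m k : ℕ) [NeZero m], Odd m →
  Big k (m.primeFactors.filter fun p => p ≤ k + 1) →
  ∀ s : Multiset (ZMod m), Multiset.card s ≤ k → Rel (fun z : ZMod m => (s.count z : ℤ)) →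
  CD m (fun z : ZMod m => (s.count z : ℤ)) →
  ∀ (Q : Type) [AddCommGroup Q] (c : ZMod m → Q), OddDist c → (s.map c).sum = 0

/-- (G9) the combinatorial theorem for levels divisible by four -/
def S_evenG : Prop := ∀ (m K : ℕ) [NeZero m], 4 ∣ m → 2 ≤ K →
  Big K (m.primeFactors.filter fun p => p ≤ K + 1) →
  ∀ s : Multiset (ZMod m), (∀ z ∈ s, Gd z) →
  Multiset.card s + Multiset.card (s.filter fun z => 4 ∣ addOrderOf z) ≤ K →
  Rel (fun z : ZMod m => (s.count z : ℤ)) → CEall m (fun z : ZMod m => (s.count z : ℤ)) →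
  ∀ (Q : Type) [AddCommGroup Q] (c : ZMod m → Q), OddDist c → (s.map c).sum = 0

/-- (G10) the combinatorial theorem for Hodge classes, levels prime to six -/
def S_hodG : Prop := ∀ (m k : ℕ) [NeZero m], m.Coprime 6 →
  (∀ p ∈ m.primeFactors.filter (fun p => p ≤ k + 1),
    ∀ q ∈ m.primeFactors.filter (fun p => p ≤ k + 1), p ≠ q → 4 * k < (p - 1) * (q - 1)) →
  ∀ s : Multiset (ZMod m), Multiset.card s ≤ k → Rel (fun z : ZMod m => (s.count z : ℤ)) →
  ∀ (Q : Type) [AddCommGroup Q] (c : ZMod m → Q), OddDist c → (s.map c).sum = 0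

/-- (G11) the size condition in small dimension -/
def S_num : Prop := ∀ P : Finset ℕ, (∀ p ∈ P, p.Prime) →
  (2 ∉ P → Big 28 P) ∧ (2 ∉ P → 3 ∉ P → Big 178 P) ∧ (3 ∉ P → Big 56 P) ∧
  (¬ (3 ∈ P ∧ 5 ∈ P ∧ 7 ∈ P) → Big 16 P)

end Pool.Agent.NH35.HS
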