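import Pool.Agent.NH35.HQ.Sys

/-! Systems modulo two with leading term a cell, for any number of coordinates: a closed formula in
a group ring, and statements. -/

set_option autoImplicit false
set_option linter.unusedSectionVars false

namespace Pool.Agent.NH35.HS

open Finset Pool.Agent.NH35.HK Pool.Agent.NH35.HQ

variable {ι : Type} [Fintype ι] [DecidableEq ι] {H : ι → Type} [∀ i, CommGroup (H i)]
  [∀ i, Fintype (H i)] [∀ i, DecidableEq (H i)]

/-- the part of `g` at the coordinates in `S` -/
def rs (S : Finset ι) (g : ∀ i, H i) : ∀ i, H i := fun i => if i ∈ S then g i else 1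

/-- the same as a homomorphism -/
def rh (S : Finset ι) : (∀ i, H i) →* (∀ i, H i) where
  toFun := rs S
  map_one' := by
    funext i
    unfold rs
    split_ifs <;> rfl
  map_mul' g h := by
    funext i
    unfold rs
    by_cases hi : i ∈ S
    · simp [hi]
    · simp [hi]

/-- the group ring modulo two -/
abbrev GR (H : ι → Type) [∀ i, CommGroup (H i)] : Type := MonoidAlgebra (ZMod 2) (∀ i, H i)

/-- the elements of the group in the group ring -/
noncomputable def gr (g : ∀ i, H i) : GR H := MonoidAlgebra.single g 1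

/-- the sum of the parts of `g` at the coordinates of `A` after `i`, with and without `i` -/
noncomputable def ed (o : ι → ℕ) (A : Finset ι) (g : ∀ i, H i) (i : ι) : GR H :=
  gr (rs (A.filter fun j => o i ≤ o j) g) + gr (rs (A.filter fun j => o i < o j) g)

/-- the factor of the coordinate `i`; `none` is the variable of minus one, `some r` the variable of
the Frobenius at `r` -/
noncomputable def fc (d : Dat H) (o : ι → ℕ) (I A : Finset ι) (i : ι) :
    MvPolynomial (Option ι) (GR H) :=
  MvPolynomial.X none * MvPolynomial.C (ed o A d.κ i) +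
  (∑ r ∈ A \ I, MvPolynomial.X (some r) * MvPolynomial.C (ed o A (d.τ r) i)) +
  (if i ∈ A \ I then MvPolynomial.X (some i) * MvPolynomial.C (1 + gr (rs A (d.τ i))) else 0)

/-- the exponents: `I.card` for `none`, one for every `r ∈ A \ I` -/
noncomputable def mo (I A : Finset ι) : Option ι →₀ ℕ :=
  Finsupp.single none I.card + ∑ r ∈ A \ I, Finsupp.single (some r) 1

/-- the element of the group ring at the set `A` -/
noncomputable def pe (d : Dat H) (o : ι → ℕ) (I A : Finset ι) : GR H :=
  if I ⊆ A then MvPolynomial.coeff (mo I A) (∏ i ∈ A, fc d o I A i) else 0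

/-- the system with leading term the cell of `w` -/
noncomputable def psg (d : Dat H) (o : ι → ℕ) (I : Finset ι) (w : ∀ i, H i) (A : Finset ι)
    (u : ∀ i, H i) : ZMod 2 :=
  (pe d o I A).coeff (rs A (w⁻¹ * u))

/-- the bound for the number of the group elements in `pe` at a set with `a` elements, for a set `I`
with `n` elements -/
def NB (n a : ℕ) : ℕ := 2 ^ a * (a - 1).descFactorial (a - n)

/-- (G1) the relations in the group ring: setting the coordinate `q` to one -/
def S_pi : Prop := ∀ (ι : Type) [Fintype ι] [DecidableEq ι] (H : ι → Type) [∀ i, CommGroup (H i)]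
  [∀ i, Fintype (H i)] [∀ i, DecidableEq (H i)] (d : Dat H) (o : ι → ℕ), Function.Injective o →
  ∀ (I : Finset ι), I.Nonempty → ∀ (A : Finset ι), ∀ q ∈ A,
  MonoidAlgebra.mapDomainRingHom (ZMod 2) (rh (univ.erase q)) (pe d o I A) =
    (1 + gr (rs (A.erase q) (d.τ q))) * pe d o I (A.erase q)

/-- (G2) the element is invariant under minus one -/
def S_kap : Prop := ∀ (ι : Type) [Fintype ι] [DecidableEq ι] (H : ι → Type) [∀ i, CommGroup (H i)]
  [∀ i, Fintype (H i)] [∀ i, DecidableEq (H i)] (d : Dat H) (o : ι → ℕ), Function.Injective o →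
  ∀ (I A : Finset ι), I ⊆ A → gr (rs A d.κ) * pe d o I A = pe d o I A

/-- (G3) the leading term -/
def S_lead : Prop := ∀ (ι : Type) [Fintype ι] [DecidableEq ι] (H : ι → Type) [∀ i, CommGroup (H i)]
  [∀ i, Fintype (H i)] [∀ i, DecidableEq (H i)] (d : Dat H) (o : ι → ℕ), Function.Injective o →
  ∀ (I : Finset ι), pe d o I I = ∏ i ∈ I, (1 + gr (rs {i} d.κ))

/-- (G4) the number of terms; one coordinate is replaced by the factor `1 + κ` -/
def S_plen : Prop := ∀ (ι : Type) [Fintype ι] [DecidableEq ι] (H : ι → Type) [∀ i, CommGroup (H i)]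
  [∀ i, Fintype (H i)] [∀ i, DecidableEq (H i)] (d : Dat H) (o : ι → ℕ), Function.Injective o →
  ∀ (I A : Finset ι), I.Nonempty → I ⊆ A → (pe d o I A).coeff.support.card ≤ NB I.card A.card

/-- (G5) the functions `psg` form a system -/
def S_psg : Prop := ∀ (ι : Type) [Fintype ι] [DecidableEq ι] (H : ι → Type) [∀ i, CommGroup (H i)]
  [∀ i, Fintype (H i)] [∀ i, DecidableEq (H i)] (d : Dat H) (o : ι → ℕ), Function.Injective o →
  ∀ (I : Finset ι), I.Nonempty → ∀ (w : ∀ i, H i),
  Full d (psg d o I w) ∧ Odd1 d (psg d o I w) ∧ psg d o I w I = fI d I w ∧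
    ∀ A, ¬ I ⊆ A → psg d o I w A = 0

/-- (G6) if there are few boxes, then there is a base point for which none of the boxes contributes -/
def S_hitG : Prop := ∀ (ι : Type) [Fintype ι] [DecidableEq ι] (H : ι → Type) [∀ i, CommGroup (H i)]
  [∀ i, Fintype (H i)] [∀ i, DecidableEq (H i)] (d : Dat H) (o : ι → ℕ), Function.Injective o →
  ∀ (I : Finset ι), I.Nonempty → ∀ (T : Type) [Fintype T] (A : T → Finset ι)
  (b : T → ∀ i, Finset (H i)),
  (∑ t : T, (if I ⊆ A t then (NB I.card (A t).card : ℚ) *
      ∏ i ∈ A t, (((b t i).card : ℚ) / (Fintype.card (H i) : ℚ)) else 0)) < 1 →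
  ∃ w : ∀ i, H i, ∀ t, bs2 (A t) (b t) (psg d o I w (A t)) = 0

end Pool.Agent.NH35.HS
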